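import Pool.Agent.H45.TH.NCh

/-!
# TH / Chg: a free set of size `κ^(m+)` is impossible for `n ≤ 3 m - 3`
-/

set_option autoImplicit false

open Cardinal Order Set

namespace Pool.Agent.H45.TH

variable {κ : Cardinal.{0}} {n : ℕ} {X : Type} [LinearOrder X]

/-- if the codes of the `(n-m+1)`-subsets form a small set, then a fixed `s`-set occurs with few
coded elements -/
lemma Sys.few_coded (hκ : ℵ₀ ≤ κ) (S : Sys κ n X) {R m : ℕ} {k : ℕ → Finset X → X → X}
    {T : Set X} (hT : S.Free R m k T) {r s : ℕ} (hr : 2 * r ≤ R) (h2m : 2 * m ≤ n)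
    (hs : s + 2 * m = n + 1) (x γ : Finset X → X)
    (h : ∀ F : Finset X, (F : Set X) ⊆ T → F.card = n - m + 1 →
      x F ∈ F ∧ γ F ∈ S.G r (F : Set X) ∧ x F ∈ S.G r (insert (γ F) ↑(F.erase (x F))))
    {L : Set X} (hL : #L < succ^[m] κ)
    (hγL : ∀ F : Finset X, (F : Set X) ⊆ T → F.card = n - m + 1 → γ F ∈ L) (A : Finset X)
    (hA : A.card = s) :
    #{y | ∃ F : Finset X, (F : Set X) ⊆ T ∧ F.card = n - m + 1 ∧ x F = y ∧ A ⊆ F.erase y} <
      succ^[m] κ := by
  classical
  by_contra hcon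
  rw [not_lt] at hcon
  set Q : Set X :=
    {y | ∃ F : Finset X, (F : Set X) ⊆ T ∧ F.card = n - m + 1 ∧ x F = y ∧ A ⊆ F.erase y} with hQ
  have hch : ∀ y : Q, ∃ F : Finset X, (F : Set X) ⊆ T ∧ F.card = n - m + 1 ∧ x F = y ∧
      A ⊆ F.erase (y : X) := fun y => y.2
  choose F hF1 hF2 hF3 hF4 using hch
  have hinfQ : Infinite Q := by
    rw [Cardinal.infinite_iff]
    exact (aleph0_le_iter hκ m).trans hcon
  obtain ⟨c, hc⟩ := Cardinal.exists_infinite_fiber
    (f := fun y : Q => (⟨γ (F y), hγL _ (hF1 y) (hF2 y)⟩ : L)) (hL.trans_le hcon)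
  have hc' : {y : Q | γ (F y) = c}.Infinite := by
    rw [← Set.infinite_coe_iff]
    convert hc using 2
    ext y
    simp only [Set.mem_preimage, Set.mem_singleton_iff, Set.mem_setOf_eq]
    rw [Subtype.ext_iff]
  obtain ⟨y', hy'⟩ := hc'.nonempty
  have hc'' : ((fun y : Q => (y : X)) '' {y : Q | γ (F y) = c}).Infinite :=
    hc'.image (Subtype.val_injective.injOn)
  obtain ⟨_, ⟨y, hy, rfl⟩, hyF⟩ := (hc''.sdiff (F y').finite_toSet).nonempty
  have hy2 : γ (F y) = γ (F y') := by
    rw [Set.mem_setOf_eq] at hy hy'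
    rw [hy, hy']
  have h1 := h (F y) (hF1 y) (hF2 y)
  have h2 := h (F y') (hF1 y') (hF2 y')
  rw [hF3] at h1
  refine S.code_injective hT (Z := T) (W := ∅) Subset.rfl (by simp) (by simp) hr (A := F y)
    (B := F y') (x := (y : X)) (γ := γ (F y)) (hF1 y) (hF1 y') h1.1 hyF ?_ ?_ ?_
  · rw [Finset.coe_empty, union_empty, hy2]
    exact h2.2.1
  · rw [Finset.coe_empty, union_empty]
    exact h1.2.2
  · have hA1 : A ⊆ (F y).erase (y : X) ∩ F y' := by
      refine Finset.subset_inter (hF4 y) ((hF4 y').trans (Finset.erase_subset _ _))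
    have h3 := Finset.card_le_card hA1
    have h4 := Finset.card_union_add_card_inter ((F y).erase (y : X)) (F y')
    rw [Finset.card_erase_of_mem h1.1, hF2, hF2] at h4
    rw [Finset.card_empty]
    omega

theorem Sys.main_free [WellFoundedLT X] (hκ : ℵ₀ ≤ κ) (S : Sys κ n X) {R m : ℕ}
    {E : ℕ → ℕ → X → Set X} {k : ℕ → Finset X → X → X} (hR : 2 ^ (n + 1) ≤ R)
    (hE : Enum κ m X E) (hk : S.KillFn R m E k) {T : Set X} (hT : S.Free R m k T)
    (hTc : succ^[m] κ ≤ #T) (hm : 2 ≤ m) (hmn : m ≤ n) (h3m : n + 3 ≤ 3 * m) : False := by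
  classical
  have hb0 : S.KP 0 1 n T (↑(∅ : Finset X)) := S.kp_base T _
  by_cases h2 : n + 1 ≤ 2 * m
  · exact S.r1star hκ hR hE hk hT (Z := T) (W := ∅) (r := 0) (s := 1) (j := n) (m' := m)
      Subset.rfl (by simp) (by simp) hTc hm le_rfl hb0 hmn le_rfl (by simp) (by omega) (by simp)
  · have h2m : 2 * m ≤ n := by omega
    have hTinf : T.Infinite := by
      rw [← Set.infinite_coe_iff, Cardinal.infinite_iff]
      exact (aleph0_le_iter hκ m).trans hTc
    have hRn : 2 * 2 ^ n ≤ R := by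
      rw [pow_succ] at hR
      omega
    have hKP1 : S.KP (2 ^ (n - m) * (0 + 1) - 1) (n - m + 1) m T (↑(∅ : Finset X)) := by
      have h1 : S.KP 0 1 (m + (n - m)) T (↑(∅ : Finset X)) := by
        rwa [show m + (n - m) = n by omega]
      have h2 := S.kp_iter (n - m) h1
      rwa [show 1 + (n - m) = n - m + 1 by omega] at h2
    set r1 : ℕ := 2 ^ (n - m) * (0 + 1) - 1 with hr1
    have hpos : 0 < 2 ^ (n - m) := by positivity
    have hr1' : r1 + 1 = 2 ^ (n - m) := by omega
    have hr1n : r1 ≤ 2 ^ n := by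
      have : 2 ^ (n - m) ≤ 2 ^ n := Nat.pow_le_pow_right (by norm_num) (by omega)
      omega
    set C : Set X := S.H 1 T with hC
    have hCc : S.Closed C := S.H_closed _ _
    by_cases hΓ : succ^[m] κ ≤ #(C ∩ lev κ X m : Set X)
    · exact S.nonchang hκ hR hE hk hT hTc h2m h3m
        (S.unb hκ hCc (S.lev_subset_H 1 _) m (by omega) hΓ)
    · rw [not_le] at hΓ
      have hch : ∀ F : Finset X, ∃ x γ : X, (F : Set X) ⊆ T → F.card = n - m + 1 →
          x ∈ F ∧ γ ∈ lev κ X m ∧ γ ∈ S.G r1 (F : Set X) ∧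
            x ∈ S.G r1 (insert γ ↑(F.erase x)) := by
        intro F
        by_cases hF : (F : Set X) ⊆ T ∧ F.card = n - m + 1
        · obtain ⟨x, hx, γ, h1, h2, h3⟩ := hKP1 F hF.1 hF.2
          rw [Finset.coe_empty, union_empty] at h2 h3
          exact ⟨x, γ, fun _ _ => ⟨hx, h1, h2, h3⟩⟩
        · exact ⟨S.z, S.z, fun h1 h2 => absurd ⟨h1, h2⟩ hF⟩
      choose x γ hxγ using hch
      obtain ⟨s, hs⟩ : ∃ s, s + 2 * m = n + 1 := ⟨n + 1 - 2 * m, by omega⟩
      obtain ⟨v, rfl⟩ : ∃ v, m = v + 1 := ⟨m - 1, by omega⟩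
      let Q : Finset X → Set X := fun A =>
        {y | ∃ F : Finset X, (F : Set X) ⊆ T ∧ F.card = n - (v + 1) + 1 ∧ x F = y ∧ A ⊆ F.erase y}
      have hQ : ∀ A : Finset X, A.card = s → #(Q A) ≤ succ^[v] κ := by
        intro A hA
        have := S.few_coded hκ hT (r := r1) (s := s) (by omega) h2m hs x γ
          (fun F h1 h2 => ⟨(hxγ F h1 h2).1, (hxγ F h1 h2).2.2.1, (hxγ F h1 h2).2.2.2⟩)
          (L := C ∩ lev κ X (v + 1)) hΓ (fun F h1 h2 => ⟨S.G_sub_H (h1.trans (S.subset_H 1 _)) r1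
            (hxγ F h1 h2).2.2.1, (hxγ F h1 h2).2.1⟩) A hA
        exact lt_iter_succ.1 this
      obtain ⟨Z1, hZ1T, hZ1c⟩ := Cardinal.le_mk_iff_exists_subset.1
        ((iter_le (κ := κ) (Nat.le_succ v)).trans hTc)
      have hc := aleph0_le_iter hκ v
      -- few finite subsets
      have hfin : #{A : Finset X | (A : Set X) ⊆ Z1} ≤ succ^[v] κ := by
        have h1 : #{A : Finset X | (A : Set X) ⊆ Z1} ≤ #(Finset Z1) := by
          refine Cardinal.mk_le_of_surjective
            (f := fun B : Finset Z1 => (⟨B.map (Function.Embedding.subtype _), ?_⟩ :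
              {A : Finset X | (A : Set X) ⊆ Z1})) ?_
          · intro y hy
            rw [Finset.coe_map] at hy
            obtain ⟨y', -, rfl⟩ := hy
            exact y'.2
          · rintro ⟨A, hA⟩
            refine ⟨A.subtype (· ∈ Z1), ?_⟩
            apply Subtype.ext
            change (A.subtype (· ∈ Z1)).map (Function.Embedding.subtype _) = A
            rw [Finset.subtype_map]
            exact Finset.filter_true_of_mem (fun y hy => hA hy)
        have : Infinite Z1 := by
          rw [Cardinal.infinite_iff, hZ1c]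
          exact hc
        rw [Cardinal.mk_finset_of_infinite, hZ1c] at h1
        exact h1
      have hbad : #(Z1 ∪ ⋃ A ∈ {A : Finset X | (A : Set X) ⊆ Z1 ∧ A.card = s}, Q A : Set X) ≤
          succ^[v] κ := by
        refine (Cardinal.mk_union_le _ _).trans ?_
        refine (add_le_add hZ1c.le (mk_biUnion_le' hc _ _ ?_ (fun A hA => hQ A hA.2))).trans
          (Cardinal.add_eq_self hc).le
        exact (Cardinal.mk_le_mk_of_subset (fun A hA => hA.1)).trans hfin
      have hrest : (T \ (Z1 ∪ ⋃ A ∈ {A : Finset X | (A : Set X) ⊆ Z1 ∧ A.card = s}, Q A)).Infinite := by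
        intro hfin'
        have h1 : #T ≤ succ^[v] κ := by
          have h2 : T ⊆ (T \ (Z1 ∪ ⋃ A ∈ {A : Finset X | (A : Set X) ⊆ Z1 ∧ A.card = s}, Q A)) ∪
              (Z1 ∪ ⋃ A ∈ {A : Finset X | (A : Set X) ⊆ Z1 ∧ A.card = s}, Q A) := by
            intro y hy
            by_cases hy' : y ∈ (Z1 ∪ ⋃ A ∈ {A : Finset X | (A : Set X) ⊆ Z1 ∧ A.card = s}, Q A)
            · exact Or.inr hy'
            · exact Or.inl ⟨hy, hy'⟩
          refine (Cardinal.mk_le_mk_of_subset h2).trans ((Cardinal.mk_union_le _ _).trans ?_)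
          exact (add_le_add (hfin'.lt_aleph0.le.trans hc) hbad).trans (Cardinal.add_eq_self hc).le
        exact absurd (hTc.trans h1) (not_le.2 (iter_lt (Nat.lt_succ_self v)))
      obtain ⟨W1, hW1, hW1c⟩ := hrest.exists_subset_card_eq (v + 1)
      have hW1T : (W1 : Set X) ⊆ T := fun y hy => (hW1 hy).1
      have hdis : Disjoint Z1 (W1 : Set X) := by
        rw [Set.disjoint_left]
        intro y hy hy'
        exact (hW1 hy').2 (Or.inl hy)
      have hKP2 : S.KP r1 s (v + 1) Z1 ↑W1 := by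
        intro A hA hAs
        have hAW : Disjoint A W1 := by
          rw [Finset.disjoint_left]
          intro y hy hy'
          exact Set.disjoint_left.1 hdis (hA hy) hy'
        have hFT : (↑(A ∪ W1) : Set X) ⊆ T := by
          rw [Finset.coe_union]
          exact union_subset (hA.trans hZ1T) hW1T
        have hFc : (A ∪ W1).card = n - (v + 1) + 1 := by
          rw [Finset.card_union_of_disjoint hAW, hAs, hW1c]
          omega
        obtain ⟨h1, h2, h3, h4⟩ := hxγ (A ∪ W1) hFT hFc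
        have hxA : x (A ∪ W1) ∈ A := by
          rcases Finset.mem_union.1 h1 with h | h
          · exact h
          · exfalso
            refine (hW1 h).2 (Or.inr ?_)
            simp only [Set.mem_iUnion]
            refine ⟨A, ⟨hA, hAs⟩, A ∪ W1, hFT, hFc, rfl, ?_⟩
            intro y hy
            rw [Finset.mem_erase]
            refine ⟨?_, Finset.mem_union_left _ hy⟩
            rintro rfl
            exact Finset.disjoint_left.1 hAW hy h
        have hxW : x (A ∪ W1) ∉ W1 := fun h => Finset.disjoint_left.1 hAW hxA h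
        refine ⟨x (A ∪ W1), hxA, γ (A ∪ W1), h2, ?_, ?_⟩
        · rwa [Finset.coe_union] at h3
        · rwa [Finset.erase_union_distrib, Finset.erase_eq_of_notMem hxW, Finset.coe_union] at h4
      refine S.r1star hκ hR hE hk hT (Z := Z1) (W := W1) (r := r1) (s := s) (j := v + 1) (m' := v)
        hZ1T hW1T hdis hZ1c.ge (by omega) (by omega) hKP2 (by omega) (by omega) (by omega)
        (by omega) ?_
      rw [hr1', ← pow_add]
      exact Nat.pow_le_pow_right (by norm_num) (by omega)

end Pool.Agent.H45.TH
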