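import Pool.Agent.H45.TH.Defs

/-!
# Closure operators: basic lemmas
-/

set_option autoImplicit false

open Cardinal Order Set

namespace Pool.Agent.H45.TH

variable {κ : Cardinal.{0}} {n : ℕ} {X : Type} [LinearOrder X]

lemma iter_le {i j : ℕ} (h : i ≤ j) : succ^[i] κ ≤ succ^[j] κ := by
  induction j, h using Nat.le_induction with
  | base => exact le_rfl
  | succ j _ ih => exact ih.trans (by rw [Function.iterate_succ_apply']; exact le_succ _)

lemma iter_lt {i j : ℕ} (h : i < j) : succ^[i] κ < succ^[j] κ := by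
  refine lt_of_lt_of_le ?_ (iter_le (Nat.succ_le_of_lt h))
  rw [Function.iterate_succ_apply']
  exact lt_succ _

lemma aleph0_le_iter (hκ : ℵ₀ ≤ κ) (i : ℕ) : ℵ₀ ≤ succ^[i] κ :=
  hκ.trans (iter_le (i := 0) (Nat.zero_le i))

lemma isRegular_iter (hκ : ℵ₀ ≤ κ) (i : ℕ) : (succ^[i + 1] κ).IsRegular := by
  rw [Function.iterate_succ_apply']
  exact isRegular_succ (aleph0_le_iter hκ i)

lemma lt_iter_succ {i : ℕ} {c : Cardinal.{0}} : c < succ^[i + 1] κ ↔ c ≤ succ^[i] κ := by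
  rw [Function.iterate_succ_apply']
  exact lt_succ_iff

lemma iter_succ_le {i : ℕ} {c : Cardinal.{0}} : succ^[i + 1] κ ≤ c ↔ succ^[i] κ < c := by
  rw [Function.iterate_succ_apply']
  exact succ_le_iff

lemma lev_mono {i j : ℕ} (h : i ≤ j) : lev κ X i ⊆ lev κ X j := fun _ hx => lt_of_lt_of_le hx (iter_le h)

namespace Sys

variable (S : Sys κ n X)

@[simp] lemma G_zero (U : Set X) : S.G 0 U = U := rfl

lemma G_succ (r : ℕ) (U : Set X) : S.G (r + 1) U = S.st (S.G r U) :=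
  Function.iterate_succ_apply' _ _ _

lemma subset_st (U : Set X) : U ⊆ S.st U := fun _ h => Or.inl (Or.inl (Or.inl h))

lemma st_mono {U V : Set X} (h : U ⊆ V) : S.st U ⊆ S.st V :=
  union_subset_union (union_subset_union (union_subset_union_left _ h) (image2_subset h h))
    (image2_subset h h)

lemma G_mono {U V : Set X} (h : U ⊆ V) (r : ℕ) : S.G r U ⊆ S.G r V := by
  induction r with
  | zero => exact h
  | succ r ih =>
    rw [G_succ, G_succ]
    exact S.st_mono ih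

lemma G_le {r r' : ℕ} (h : r ≤ r') (U : Set X) : S.G r U ⊆ S.G r' U := by
  induction r', h using Nat.le_induction with
  | base => exact Subset.rfl
  | succ j _ ih =>
    rw [G_succ]
    exact ih.trans (S.subset_st _)

lemma G_G (r r' : ℕ) (U : Set X) : S.G r (S.G r' U) = S.G (r + r') U :=
  (Function.iterate_add_apply _ _ _ _).symm

lemma subset_G (r : ℕ) (U : Set X) : U ⊆ S.G r U := S.G_le (Nat.zero_le r) U

lemma G_trans {U V : Set X} {r' : ℕ} (h : V ⊆ S.G r' U) (r : ℕ) : S.G r V ⊆ S.G (r + r') U := by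
  rw [← G_G]
  exact S.G_mono h r

lemma z_mem_G (r : ℕ) (U : Set X) : S.z ∈ S.G (r + 1) U := by
  rw [G_succ]
  exact Or.inl (Or.inl (Or.inr rfl))

lemma e_mem_G {r : ℕ} {U : Set X} {a b : X} (ha : a ∈ S.G r U) (hb : b ∈ S.G r U) :
    S.e b a ∈ S.G (r + 1) U := by
  rw [G_succ]
  exact Or.inl (Or.inr ⟨b, hb, a, ha, rfl⟩)

lemma d_mem_G {r : ℕ} {U : Set X} {a b : X} (ha : a ∈ S.G r U) (hb : b ∈ S.G r U) :
    S.d b a ∈ S.G (r + 1) U := by
  rw [G_succ]
  exact Or.inr ⟨b, hb, a, ha, rfl⟩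

lemma st_finite {U : Set X} (h : U.Finite) : (S.st U).Finite :=
  ((h.union (finite_singleton _)).union (h.image2 _ h)).union (h.image2 _ h)

lemma G_finite {U : Set X} (h : U.Finite) (r : ℕ) : (S.G r U).Finite := by
  induction r with
  | zero => exact h
  | succ r ih =>
    rw [G_succ]
    exact S.st_finite ih

lemma G_finchar {r : ℕ} {U : Set X} {x : X} (hx : x ∈ S.G r U) :
    ∃ F : Finset X, (F : Set X) ⊆ U ∧ x ∈ S.G r ↑F := by
  classical
  induction r generalizing x with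
  | zero => exact ⟨{x}, by simpa using hx, by simp⟩
  | succ r ih =>
    rw [G_succ] at hx
    rcases hx with ((hx | hx) | ⟨b, hb, a, ha, rfl⟩) | ⟨b, hb, a, ha, rfl⟩
    · obtain ⟨F, h1, h2⟩ := ih hx
      exact ⟨F, h1, S.G_le (Nat.le_succ r) _ h2⟩
    · rw [mem_singleton_iff] at hx
      subst hx
      exact ⟨∅, by simp, S.z_mem_G _ _⟩
    · obtain ⟨F, h1, h2⟩ := ih hb
      obtain ⟨F', h1', h2'⟩ := ih ha
      refine ⟨F ∪ F', by rw [Finset.coe_union]; exact union_subset h1 h1', ?_⟩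
      refine S.e_mem_G (S.G_mono ?_ r h2') (S.G_mono ?_ r h2) <;> rw [Finset.coe_union]
      · exact subset_union_right
      · exact subset_union_left
    · obtain ⟨F, h1, h2⟩ := ih hb
      obtain ⟨F', h1', h2'⟩ := ih ha
      refine ⟨F ∪ F', by rw [Finset.coe_union]; exact union_subset h1 h1', ?_⟩
      refine S.d_mem_G (S.G_mono ?_ r h2') (S.G_mono ?_ r h2) <;> rw [Finset.coe_union]
      · exact subset_union_right
      · exact subset_union_left

lemma G_subset_closed {C U : Set X} (hC : S.Closed C) (h : U ⊆ C) (r : ℕ) : S.G r U ⊆ C := by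
  induction r with
  | zero => exact h
  | succ r ih =>
    rw [G_succ]
    rintro x (((hx | hx) | ⟨b, hb, a, ha, rfl⟩) | ⟨b, hb, a, ha, rfl⟩)
    · exact ih hx
    · rw [mem_singleton_iff] at hx
      rw [hx]
      exact hC.1
    · exact (hC.2 a (ih ha) b (ih hb)).1
    · exact (hC.2 a (ih ha) b (ih hb)).2

lemma subset_H (t : ℕ) (U : Set X) : U ⊆ S.H t U := fun _ h =>
  mem_iUnion.2 ⟨0, Or.inl h⟩

lemma lev_subset_H (t : ℕ) (U : Set X) : lev κ X t ⊆ S.H t U := fun _ h =>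
  mem_iUnion.2 ⟨0, Or.inr h⟩

lemma H_closed (t : ℕ) (U : Set X) : S.Closed (S.H t U) := by
  refine ⟨mem_iUnion.2 ⟨1, S.z_mem_G 0 _⟩, ?_⟩
  intro a ha b hb
  obtain ⟨r, hr⟩ := mem_iUnion.1 ha
  obtain ⟨r', hr'⟩ := mem_iUnion.1 hb
  have h1 := S.G_le (le_max_left r r') _ hr
  have h2 := S.G_le (le_max_right r r') _ hr'
  exact ⟨mem_iUnion.2 ⟨_, S.e_mem_G h1 h2⟩, mem_iUnion.2 ⟨_, S.d_mem_G h1 h2⟩⟩

lemma H_subset_closed {C U : Set X} {t : ℕ} (hC : S.Closed C) (h : U ⊆ C) (hl : lev κ X t ⊆ C) :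
    S.H t U ⊆ C := iUnion_subset fun r => S.G_subset_closed hC (union_subset h hl) r

lemma H_mono {U V : Set X} (h : U ⊆ V) (t : ℕ) : S.H t U ⊆ S.H t V :=
  S.H_subset_closed (S.H_closed t V) (h.trans (S.subset_H t V)) (S.lev_subset_H t V)

lemma H_le {t t' : ℕ} (h : t ≤ t') (U : Set X) : S.H t U ⊆ S.H t' U :=
  S.H_subset_closed (S.H_closed t' U) (S.subset_H t' U) ((lev_mono h).trans (S.lev_subset_H t' U))

lemma H_sub {U V : Set X} {t : ℕ} (h : U ⊆ S.H t V) : S.H t U ⊆ S.H t V :=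
  S.H_subset_closed (S.H_closed t V) h (S.lev_subset_H t V)

lemma G_sub_H {U V : Set X} {t : ℕ} (h : U ⊆ S.H t V) (r : ℕ) : S.G r U ⊆ S.H t V :=
  S.G_subset_closed (S.H_closed t V) h r

lemma H_finchar_one {t : ℕ} {U : Set X} {x : X} (hx : x ∈ S.H t U) :
    ∃ F : Finset X, (F : Set X) ⊆ U ∧ x ∈ S.H t ↑F := by
  classical
  obtain ⟨r, hr⟩ := mem_iUnion.1 hx
  obtain ⟨F, h1, h2⟩ := S.G_finchar hr
  refine ⟨F.filter (· ∈ U), ?_, ?_⟩
  · intro y hy
    rw [Finset.coe_filter] at hy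
    exact hy.2
  · refine S.G_sub_H (t := t) ?_ r h2
    intro y hy
    rcases h1 hy with h | h
    · refine S.subset_H t _ ?_
      rw [Finset.coe_filter]
      exact ⟨hy, h⟩
    · exact S.lev_subset_H t _ h

lemma H_finchar {t : ℕ} {U : Set X} (P : Finset X) (hP : (P : Set X) ⊆ S.H t U) :
    ∃ F : Finset X, (F : Set X) ⊆ U ∧ (P : Set X) ⊆ S.H t ↑F := by
  classical
  induction P using Finset.induction_on with
  | empty => exact ⟨∅, by simp, by simp⟩
  | insert a P _ ih =>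
    rw [Finset.coe_insert, insert_subset_iff] at hP
    obtain ⟨F, h1, h2⟩ := ih hP.2
    obtain ⟨F', h1', h2'⟩ := S.H_finchar_one hP.1
    refine ⟨F ∪ F', by rw [Finset.coe_union]; exact union_subset h1 h1', ?_⟩
    rw [Finset.coe_insert, insert_subset_iff, Finset.coe_union]
    exact ⟨S.H_mono subset_union_right t h2', h2.trans (S.H_mono subset_union_left t)⟩

lemma mk_st_le {c : Cardinal.{0}} (hc : ℵ₀ ≤ c) {U : Set X} (hU : #U ≤ c) : #(S.st U) ≤ c := by
  have h2 : ∀ f : X → X → X, #(Set.image2 f U U) ≤ c := by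
    intro f
    have h3 : #(Set.image2 f U U) ≤ #(U ×ˢ U : Set (X × X)) := by
      rw [← Set.image_prod]
      exact Cardinal.mk_image_le
    refine h3.trans ?_
    have h4 : #(U ×ˢ U : Set (X × X)) = #U * #U := by
      rw [Cardinal.mk_setProd]
    rw [h4]
    exact (mul_le_mul' hU hU).trans (Cardinal.mul_eq_self hc).le
  have h1 : #({S.z} : Set X) ≤ c := by
    rw [Cardinal.mk_singleton]
    exact Cardinal.one_le_aleph0.trans hc
  have hadd : ∀ {A B : Set X}, #A ≤ c → #B ≤ c → #(A ∪ B : Set X) ≤ c := fun hA hB =>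
    (Cardinal.mk_union_le _ _).trans ((add_le_add hA hB).trans (Cardinal.add_eq_self hc).le)
  exact hadd (hadd (hadd hU h1) (h2 _)) (h2 _)

lemma mk_G_le {c : Cardinal.{0}} (hc : ℵ₀ ≤ c) {U : Set X} (hU : #U ≤ c) (r : ℕ) :
    #(S.G r U) ≤ c := by
  induction r with
  | zero => exact hU
  | succ r ih =>
    rw [G_succ]
    exact S.mk_st_le hc ih

lemma mk_H_le (hκ : ℵ₀ ≤ κ) {t : ℕ} (ht : t ≤ n) {U : Set X} (hU : #U ≤ succ^[t] κ) :
    #(S.H t U) ≤ succ^[t] κ := by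
  have hc := aleph0_le_iter hκ t
  have h1 : #(U ∪ lev κ X t : Set X) ≤ succ^[t] κ :=
    (Cardinal.mk_union_le _ _).trans
      ((add_le_add hU (S.card_lev t ht)).trans (Cardinal.add_eq_self hc).le)
  have h2 : ∀ r, #(S.G r (U ∪ lev κ X t)) ≤ succ^[t] κ := S.mk_G_le hc h1
  unfold H
  refine (Cardinal.mk_iUnion_le_sum_mk).trans ?_
  refine (Cardinal.sum_le_sum _ _ h2).trans ?_
  rw [Cardinal.sum_const, Cardinal.mk_nat, Cardinal.lift_id, Cardinal.lift_id]
  exact (mul_le_mul' hc le_rfl).trans (Cardinal.mul_eq_self hc).le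

end Sys

lemma exists_nth (z : X) {U : Set X} (hU : U.Finite) {x : X} (hx : x ∈ U) :
    ∃ l, nth z U l = x := by
  have h : ∃ f : ℕ → X, U ⊆ Set.range f := by
    obtain ⟨f, hf⟩ := hU.countable.exists_eq_range ⟨x, hx⟩
    exact ⟨f, hf.le⟩
  unfold nth
  rw [dif_pos h]
  exact h.choose_spec hx

end Pool.Agent.H45.TH
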