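import Pool.Agent.H45.TH.Cl

/-!
# TH / Cod: large subsets with a code

PROOF. For `x ∈ Z` choose `γ x ∈ lev j` with `x ∈ G r (insert (γ x) P) ⊆ G R (insert (γ x) P)` (finite set, `G_finite`), and by `exists_nth`
`l x : ℕ` with `nth S.z (S.G R (insert (γ x) P)) (l x) = x`. Since `κ^(t+)` is regular and uncountable (`t ≥ 1`, `isRegular_iter`), some
`l` has `κ^(t+) ≤ #{x ∈ Z | l x = l}` (otherwise `Z = ⋃ l, {x ∈ Z | l x = l}` would be smaller: `Cardinal.exists_infinite_fiber`-like lemmas,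
`Cardinal.infinite_pigeonhole_card`, or `mk_iUnion_lt_of_lt`-like lemmas; simplest: take first `Z₁ ⊆ Z` with
`#Z₁ = κ^(t+)` and use `Ordinal.infinite_pigeonhole`/`Cardinal.infinite_pigeonhole_set`). Let `A` be a subset of it with `#A = κ^(t+)`
(`Cardinal.le_mk_iff_exists_subset`), `B = γ '' A ⊆ lev j`, `#B ≤ κ^(t+)`; `β` is given by `Enum`, `E t j β = B`. Then
`D R P l B = {x | ∃ γ' ∈ B, nth .. l = x} = A`: an element `γ x`, `x ∈ A`, of `B` gives `nth S.z (S.G R (insert (γ x) P)) l = x`.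
-/

set_option autoImplicit false

open Cardinal Order Set

namespace Pool.Agent.H45.TH

variable {κ : Cardinal.{0}} {n : ℕ} {X : Type} [LinearOrder X]

theorem Sys.code (hκ : ℵ₀ ≤ κ) (S : Sys κ n X) {m R : ℕ} {E : ℕ → ℕ → X → Set X}
    (hE : Enum κ m X E) {t j r : ℕ} (ht : 1 ≤ t) (htj : t < j) (hj : j ≤ m) (hr : r ≤ R) {Z : Set X}
    {P : Set X} (hP : P.Finite) (hZ : succ^[t] κ ≤ #Z)
    (h : ∀ x ∈ Z, ∃ γ ∈ lev κ X j, x ∈ S.G r (insert γ P)) :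
    ∃ l, ∃ β ∈ lev κ X j, S.D R P l (E t j β) ⊆ Z ∧ succ^[t] κ ≤ #(S.D R P l (E t j β)) := by
  have h1 : ∀ x : Z, ∃ γ ∈ lev κ X j, ∃ l, nth S.z (S.G R (insert γ P)) l = x := by
    intro x
    obtain ⟨γ, hγ, hx⟩ := h x x.2
    exact ⟨γ, hγ, exists_nth S.z (S.G_finite (hP.insert γ) R) (S.G_le hr _ hx)⟩
  choose γ hγ l hl using h1
  obtain ⟨t', rfl⟩ : ∃ t', t = t' + 1 := ⟨t - 1, by omega⟩
  have hreg := isRegular_iter hκ t'
  have hlt : ℵ₀ < succ^[t' + 1] κ := lt_of_le_of_lt hκ (iter_lt (κ := κ) (i := 0) (by omega))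
  obtain ⟨l0, A, hAZ, hA, hl0⟩ := infinite_pigeonhole_set l (succ^[t' + 1] κ) hZ hlt.le
    (by rw [hreg.cof_ord, Cardinal.mk_nat]; exact hlt)
  obtain ⟨A', hA'A, hA'⟩ := Cardinal.le_mk_iff_exists_subset.1 hA
  set g : A' → X := fun x => γ ⟨x, hAZ (hA'A x.2)⟩ with hg
  have hB : Set.range g ⊆ lev κ X j := by
    rintro _ ⟨x, rfl⟩
    exact hγ _
  have hBc : #(Set.range g) ≤ succ^[t' + 1] κ := Cardinal.mk_range_le.trans hA'.le
  obtain ⟨β, hβ, hEβ⟩ := hE (t' + 1) j ht htj hj (Set.range g) hB hBc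
  have hD : S.D R P l0 (E (t' + 1) j β) = A' := by
    rw [hEβ]
    ext x
    constructor
    · rintro ⟨γ', ⟨y, rfl⟩, hx⟩
      have h2 := hl ⟨y, hAZ (hA'A y.2)⟩
      rw [hl0 (hA'A y.2)] at h2
      have h3 : x = y := hx.symm.trans h2
      rw [h3]
      exact y.2
    · intro hx
      refine ⟨g ⟨x, hx⟩, ⟨⟨x, hx⟩, rfl⟩, ?_⟩
      have h2 := hl ⟨x, hAZ (hA'A hx)⟩
      rw [hl0 (hA'A hx)] at h2
      exact h2
  refine ⟨l0, β, hβ, ?_, ?_⟩
  · rw [hD]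
    exact hA'A.trans hAZ
  · rw [hD]
    exact hA'.ge

end Pool.Agent.H45.TH
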