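import Mathlib

/-!
# Free sets of size `κ^(m+)`: definitions

`X` is a linear order (in the application the ordinal `κ^(n+)`).
-/

set_option autoImplicit false

open Cardinal Order Set

namespace Pool.Agent.H45.TH

/-- the elements of `X` with less than `κ^(j+)` predecessors -/
def lev (κ : Cardinal.{0}) (X : Type) [LinearOrder X] (j : ℕ) : Set X :=
  {x | #(Set.Iio x) < succ^[j] κ}

/-- injections `e b` of the initial segments below `b` into the lower levels, with inverses `d b` -/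
structure Sys (κ : Cardinal.{0}) (n : ℕ) (X : Type) [LinearOrder X] where
  e : X → X → X
  d : X → X → X
  z : X
  d_e : ∀ b a, a < b → d b (e b a) = a
  e_lev : ∀ j b a, a < b → b ∈ lev κ X (j + 1) → e b a ∈ lev κ X j
  z_lev : ∀ j, z ∈ lev κ X j
  top : ∀ x, x ∈ lev κ X n
  card_lev : ∀ j, j ≤ n → #(lev κ X j) ≤ succ^[j] κ

variable {κ : Cardinal.{0}} {n : ℕ} {X : Type} [LinearOrder X]

/-- one step of the closure -/
def Sys.st (S : Sys κ n X) (U : Set X) : Set X :=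
  U ∪ {S.z} ∪ Set.image2 S.e U U ∪ Set.image2 S.d U U

/-- `r` steps of the closure -/
def Sys.G (S : Sys κ n X) (r : ℕ) (U : Set X) : Set X := (S.st)^[r] U

/-- the hull of `U` and level `t` -/
def Sys.H (S : Sys κ n X) (t : ℕ) (U : Set X) : Set X := ⋃ r, S.G r (U ∪ lev κ X t)

/-- `C` is closed -/
def Sys.Closed (S : Sys κ n X) (C : Set X) : Prop :=
  S.z ∈ C ∧ ∀ a ∈ C, ∀ b ∈ C, S.e b a ∈ C ∧ S.d b a ∈ C

/-- every `s`-subset of `Z` has an element which is coded by the others (and `W`) and an element `γ`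
of level `j` which the subset (and `W`) generates -/
def Sys.KP (S : Sys κ n X) (r s j : ℕ) (Z W : Set X) : Prop :=
  ∀ E : Finset X, (E : Set X) ⊆ Z → E.card = s →
    ∃ x ∈ E, ∃ γ ∈ lev κ X j, γ ∈ S.G r (↑E ∪ W) ∧ x ∈ S.G r (insert γ (↑(E.erase x) ∪ W))

open Classical in
/-- an enumeration of a countable set -/
noncomputable def nth (z : X) (U : Set X) : ℕ → X :=
  if h : ∃ f : ℕ → X, U ⊆ Set.range f then h.choose else fun _ => z

/-- the set with the code `(P, l, B)` -/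
noncomputable def Sys.D (S : Sys κ n X) (R : ℕ) (P : Set X) (l : ℕ) (B : Set X) : Set X :=
  {x | ∃ γ ∈ B, nth S.z (S.G R (insert γ P)) l = x}

/-- `E t j` enumerates, by the elements of level `j`, the subsets of level `j` of size `κ^(t+)` -/
def Enum (κ : Cardinal.{0}) (m : ℕ) (X : Type) [LinearOrder X] (E : ℕ → ℕ → X → Set X) : Prop :=
  ∀ t j, 1 ≤ t → t < j → j ≤ m → ∀ B ⊆ lev κ X j, #B ≤ succ^[t] κ → ∃ β ∈ lev κ X j, E t j β = B

/-- `k t Y` takes every value in the hull `H t Y` twice on all large sets with a code there -/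
def Sys.KillFn (S : Sys κ n X) (R m : ℕ) (E : ℕ → ℕ → X → Set X) (k : ℕ → Finset X → X → X) :
    Prop :=
  ∀ t, 1 ≤ t → t < m → ∀ Y P : Finset X, (P : Set X) ⊆ S.H t Y → ∀ l j, j ≤ m → ∀ β ∈ S.H t Y,
    succ^[t] κ ≤ #(S.D R P l (E t j β)) → ∀ u ∈ S.H t Y,
      ∃ e0 ∈ S.D R P l (E t j β), ∃ e1 ∈ S.D R P l (E t j β), e0 ≠ e1 ∧ k t Y e0 = u ∧ k t Y e1 = u

/-- the set mapping -/
def Sys.f (S : Sys κ n X) (R m : ℕ) (k : ℕ → Finset X → X → X) (Y : Finset X) : Set X :=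
  {u | u ∉ Y ∧ (u ∈ S.G R Y ∨ ∃ t < m, ∃ Y' ⊆ Y, ∃ e ∈ S.G R Y, k t Y' e = u)}

/-- `T` is free for all subsets with at most `n` elements -/
def Sys.Free (S : Sys κ n X) (R m : ℕ) (k : ℕ → Finset X → X → X) (T : Set X) : Prop :=
  ∀ Y : Finset X, (Y : Set X) ⊆ T → Y.card ≤ n → ∀ u ∈ T, u ∉ S.f R m k Y

end Pool.Agent.H45.TH
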