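import Mathlib

/-!
# TH / Ini: initial segments of sets in a well-order

* `mk_le_of_initial`: if every `b ∈ C` has fewer than `ν` predecessors in `C`, then `#C ≤ ν`. PROOF. The subtype `C` is a well-order; its
  type is at most `ν.ord`: otherwise the element `b` of `C` with index `ν.ord` (`Ordinal.enum`, `Ordinal.typein`) has `card (ν.ord) = ν`
  predecessors. (Alternatively: `Ordinal.typein_lt_type`, `Cardinal.lt_ord`: for every `b` `typein b < ν.ord`, so `type ≤ ν.ord`, and
  `#C = card (type) ≤ ν`, by `Cardinal.ord_le`.) No hypothesis on `ν` is needed.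
* `exists_many_below`: the contrapositive of the first with `succ ν ≤ #C`.
* `exists_above`: `C ⊆ Iic x` would give `#C ≤ #(Iio x) + 1 < ν`.
* `mk_iUnion_lt`: a union of at most `κ'` sets, each of size at most `κ'`, has size at most `κ'` (`Cardinal.mk_biUnion_le` or
  `Cardinal.mk_iUnion_le_sum_mk`, `Cardinal.sum_le_sum`, `Cardinal.mul_eq_self`).
-/

set_option autoImplicit false

open Cardinal Order Set

namespace Pool.Agent.H45.TH

variable {X : Type} [LinearOrder X]

lemma mk_le_of_initial [WellFoundedLT X] {C : Set X} {ν : Cardinal.{0}}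
    (h : ∀ b ∈ C, #(C ∩ Set.Iio b : Set X) < ν) : #C ≤ ν := by
  by_contra hcon
  rw [not_le] at hcon
  have h1 : ν.ord < Ordinal.type (α := C) (· < ·) :=
    (Cardinal.ord_lt_ord.2 hcon).trans_le (Cardinal.ord_le_type _)
  obtain ⟨b, hb⟩ := Ordinal.typein_surj (α := C) (· < ·) h1
  have h2 : #{y : C // y < b} = ν := by
    rw [← Ordinal.card_typein (r := ((· < ·) : C → C → Prop)) b, hb, Cardinal.card_ord]
  have h3 : #{y : C // y < b} ≤ #(C ∩ Set.Iio (b : X) : Set X) := by
    refine Cardinal.mk_le_of_injective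
      (f := fun y : {y : C // y < b} => (⟨(y.1 : X), y.1.2, y.2⟩ : (C ∩ Set.Iio (b : X) : Set X))) ?_
    intro y y' hyy
    apply Subtype.ext
    apply Subtype.ext
    exact congrArg (fun z : (C ∩ Set.Iio (b : X) : Set X) => (z : X)) hyy
  rw [h2] at h3
  exact absurd (h b b.2) (not_lt.2 h3)

lemma exists_many_below [WellFoundedLT X] {C : Set X} {ν : Cardinal.{0}} (hC : succ ν ≤ #C) :
    ∃ b ∈ C, ν ≤ #(C ∩ Set.Iio b : Set X) := by
  by_contra hcon
  push Not at hcon
  have h1 : #C ≤ ν := mk_le_of_initial hcon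
  exact absurd (lt_of_lt_of_le (Order.lt_succ ν) (hC.trans h1)) (lt_irrefl _)

lemma exists_above {C : Set X} {ν : Cardinal.{0}} (hν : ℵ₀ ≤ ν) {x : X} (hx : #(Set.Iio x) < ν)
    (hC : ν ≤ #C) : ∃ b ∈ C, x < b := by
  by_contra hcon
  push Not at hcon
  have h1 : C ⊆ insert x (Set.Iio x) := by
    intro b hb
    rcases (hcon b hb).lt_or_eq with h | h
    · exact Or.inr h
    · exact Or.inl h
  have h2 : #C ≤ #(Set.Iio x) + 1 := (Cardinal.mk_le_mk_of_subset h1).trans Cardinal.mk_insert_le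
  have h3 : #(Set.Iio x) + 1 < ν := Cardinal.add_lt_of_lt hν hx (Cardinal.one_lt_aleph0.trans_le hν)
  exact absurd (hC.trans h2) (not_le.2 h3)

lemma mk_biUnion_le' {Y ι : Type} {c : Cardinal.{0}} (hc : ℵ₀ ≤ c) (I : Set ι) (A : ι → Set Y)
    (hI : #I ≤ c) (hA : ∀ i ∈ I, #(A i) ≤ c) : #(⋃ i ∈ I, A i : Set Y) ≤ c := by
  refine (Cardinal.mk_biUnion_le A I).trans ?_
  have h1 : (⨆ x : I, #(A x.1)) ≤ c := ciSup_le' fun x => hA x.1 x.2
  calc #I * ⨆ x : I, #(A x.1) ≤ c * c := mul_le_mul' hI h1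
    _ = c := Cardinal.mul_eq_self hc

end Pool.Agent.H45.TH
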