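import Pool.Agent.H45.TH.Cl
import Pool.Agent.H45.TH.Ini

/-!
# TH / Dsc: descent through the levels

`Bad C t i`: level `i` of `C` has a subset with `κ^(t+)` elements all of whose bounded parts are smaller.

* `bad_unique`. PROOF. Let `t < t'`, with sets `B`, `B'`. `#B ≤ κ^(t+)` (`mk_le_of_initial`). Every `x ∈ B'` lies below some `b ∈ B`: otherwise
  `B ⊆ Iic x`, `#B ≤ #(B ∩ Iio x) + 1 < κ^(t+)` (`Cardinal.add_lt_of_lt`). So `B' ⊆ ⋃ b ∈ B, B' ∩ Iio b`. With `t' = v + 1`, `t ≤ v`,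
  every `B' ∩ Iio b` has at most `κ^(v+)` elements (`lt_iter_succ`) and `#B ≤ κ^(t+) ≤ κ^(v+)`, so `#B' ≤ κ^(v+)` (`mk_biUnion_le'`), a
  contradiction.
* `exists_good`. PROOF. Otherwise every `t ∈ [1, m)` has a level `i t ∈ [m+1, n-m+1]` with `Bad C t (i t)`. `i` is injective
  (`bad_unique`), so `m - 1 ≤ n - 2m + 1 ≤ m - 2` (`Finset.card_le_card_of_injOn` with `Finset.Ico 1 m`, `Finset.Icc (m+1) (n-m+1)`).
* `cod_drop`. PROOF. Let `P`, `c` be the data for `Z`, `D = c '' Z ⊆ C ∩ lev (i+1)`, `#D = #Z ≥ κ^((v+1)+)` (`c` injective on `Z`). By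
  `exists_many_below` there is `ζ = c x₀ ∈ D` with `κ^(v+) ≤ #(D ∩ Iio ζ)`. `Z' = {x ∈ Z | c x < ζ}`, `c '' Z' = D ∩ Iio ζ`, so
  `κ^(v+) ≤ #Z'`; then `cod_below`.
* `cod_keep`. PROOF. `D = c '' Z ⊆ C ∩ lev (i+1)`, `κ^(t+) ≤ #D`. As level `i+1` is not `Bad`, `D` is not a
  witness: there is `ζ ∈ C ∩ lev (i+1)` with `κ^(t+) ≤ #(D ∩ Iio ζ)`; then `cod_below`.
* `cod_below`. PROOF. `P' = insert ζ P`, `c' = S.e ζ ∘ c`: injective on `{x ∈ Z | c x < ζ}` (`S.d_e`), `c' x ∈ C` (closedness),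
  `c' x ∈ lev i` (`S.e_lev`), and `c x = S.d ζ (c' x) ∈ G 1 (insert (c' x) P')`, so `insert (c x) P ⊆ G 1 (insert (c' x) P')` and
  `x ∈ G q (insert (c x) P) ⊆ G (q+1) (insert (c' x) P')` (`G_trans`).
* `descend`. PROOF. Induction on `a` (`cod_drop`, from level `m + b + (a + 1)` to `m + b + a`), then for `a = 0` induction on `b` (`cod_keep`).
-/

set_option autoImplicit false

open Cardinal Order Set

namespace Pool.Agent.H45.TH

variable {κ : Cardinal.{0}} {n : ℕ} {X : Type} [LinearOrder X]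

def Bad (κ : Cardinal.{0}) (C : Set X) (t i : ℕ) : Prop :=
  ∃ B : Set X, B ⊆ C ∩ lev κ X i ∧ succ^[t] κ ≤ #B ∧
    ∀ ζ ∈ C ∩ lev κ X i, #(B ∩ Set.Iio ζ : Set X) < succ^[t] κ

/-- the elements of `Z` are coded by elements of level `i` and the finite set `P`, all in `C` -/
def Sys.Cod (S : Sys κ n X) (C : Set X) (q i : ℕ) (Z : Set X) : Prop :=
  ∃ (P : Finset X) (c : X → X), (P : Set X) ⊆ C ∧ Set.InjOn c Z ∧
    ∀ x ∈ Z, c x ∈ C ∧ c x ∈ lev κ X i ∧ x ∈ S.G q (insert (c x) (P : Set X))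

theorem Dsc_lt [WellFoundedLT X] (hκ : ℵ₀ ≤ κ) {C : Set X} {t t' i : ℕ} (h : Bad κ C t i)
    (h' : Bad κ C t' i) (hlt : t < t') : False := by
  obtain ⟨B, hB, hB1, hB2⟩ := h
  obtain ⟨B', hB', hB1', hB2'⟩ := h'
  have hBle : #B ≤ succ^[t] κ := mk_le_of_initial fun b hb => hB2 b (hB hb)
  obtain ⟨v, rfl⟩ : ∃ v, t' = v + 1 := ⟨t' - 1, by omega⟩
  have htv : t ≤ v := by omega
  have hcov : B' ⊆ ⋃ b ∈ B, B' ∩ Set.Iio b := by
    intro x hx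
    have h1 := hB2 x (hB' hx)
    by_contra hcon
    have h2 : B ⊆ (B ∩ Set.Iio x) ∪ {x} := by
      intro b hb
      rcases lt_trichotomy b x with h3 | h3 | h3
      · exact Or.inl ⟨hb, h3⟩
      · exact Or.inr h3
      · exact absurd (show x ∈ ⋃ b ∈ B, B' ∩ Set.Iio b from mem_iUnion₂.2 ⟨b, hb, hx, h3⟩) hcon
    have h4 : #B ≤ #(B ∩ Set.Iio x : Set X) + 1 := by
      refine (Cardinal.mk_le_mk_of_subset h2).trans ((Cardinal.mk_union_le _ _).trans ?_)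
      rw [Cardinal.mk_singleton]
    have h5 : #(B ∩ Set.Iio x : Set X) + 1 < succ^[t] κ :=
      Cardinal.add_lt_of_lt (aleph0_le_iter hκ t) h1
        (Cardinal.one_lt_aleph0.trans_le (aleph0_le_iter hκ t))
    exact absurd (hB1.trans h4) (not_le.2 h5)
  have h6 : #(⋃ b ∈ B, B' ∩ Set.Iio b : Set X) ≤ succ^[v] κ :=
    mk_biUnion_le' (aleph0_le_iter hκ v) B (fun b => B' ∩ Set.Iio b) (hBle.trans (iter_le htv))
      fun b hb => lt_iter_succ.1 (hB2' b (hB hb))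
  have h7 : #B' ≤ succ^[v] κ := (Cardinal.mk_le_mk_of_subset hcov).trans h6
  exact absurd (hB1'.trans h7) (not_le.2 (iter_lt (Nat.lt_succ_self v)))

theorem Dsc_step (S : Sys κ n X) {C : Set X} (hC : S.Closed C) {q i : ℕ} {Z : Set X}
    {P : Finset X} {c : X → X} (hP : (P : Set X) ⊆ C) (hc : Set.InjOn c Z)
    (h : ∀ x ∈ Z, c x ∈ C ∧ c x ∈ lev κ X (i + 1) ∧ x ∈ S.G q (insert (c x) (P : Set X)))
    {ζ : X} (hζ : ζ ∈ C) (hζ' : ζ ∈ lev κ X (i + 1)) :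
    S.Cod C (q + 1) i {x ∈ Z | c x < ζ} := by
  refine ⟨insert ζ P, fun x => S.e ζ (c x), ?_, ?_, ?_⟩
  · rw [Finset.coe_insert]
    exact Set.insert_subset hζ hP
  · intro x hx y hy hxy
    have h1 : S.d ζ (S.e ζ (c x)) = S.d ζ (S.e ζ (c y)) := congrArg _ hxy
    rw [S.d_e ζ _ hx.2, S.d_e ζ _ hy.2] at h1
    exact hc hx.1 hy.1 h1
  · intro x hx
    obtain ⟨h1, _, h3⟩ := h x hx.1
    refine ⟨(hC.2 _ h1 _ hζ).1, S.e_lev i ζ _ hx.2 hζ', ?_⟩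
    have h4 : insert (c x) (P : Set X) ⊆
        S.G 1 (insert (S.e ζ (c x)) ((insert ζ P : Finset X) : Set X)) := by
      refine Set.insert_subset ?_ ?_
      · have h5 := S.d_mem_G (r := 0) (U := insert (S.e ζ (c x)) ((insert ζ P : Finset X) : Set X))
          (a := S.e ζ (c x)) (b := ζ) (Set.mem_insert _ _)
          (Set.mem_insert_of_mem _ (by rw [Finset.coe_insert]; exact Set.mem_insert _ _))
        rw [S.d_e ζ _ hx.2] at h5
        exact h5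
      · refine Subset.trans ?_ (S.subset_G 1 _)
        intro y hy
        refine Set.mem_insert_of_mem _ ?_
        rw [Finset.coe_insert]
        exact Set.mem_insert_of_mem _ hy
    exact S.G_trans h4 q h3

theorem Dsc_card {Z : Set X} {c : X → X} (hc : Set.InjOn c Z) (ζ : X) :
    #({x ∈ Z | c x < ζ} : Set X) = #(c '' Z ∩ Set.Iio ζ : Set X) := by
  have h1 : c '' {x ∈ Z | c x < ζ} = c '' Z ∩ Set.Iio ζ := by
    ext y
    constructor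
    · rintro ⟨x, hx, rfl⟩
      exact ⟨⟨x, hx.1, rfl⟩, hx.2⟩
    · rintro ⟨⟨x, hx, rfl⟩, hy⟩
      exact ⟨x, ⟨hx, hy⟩, rfl⟩
  rw [← h1]
  exact (Cardinal.mk_image_eq_of_injOn _ _ (hc.mono fun x hx => hx.1)).symm

theorem bad_unique [WellFoundedLT X] (hκ : ℵ₀ ≤ κ) {C : Set X} {t t' i : ℕ} (h : Bad κ C t i)
    (h' : Bad κ C t' i) : t = t' := by
  rcases lt_trichotomy t t' with h1 | h1 | h1
  · exact (Dsc_lt hκ h h' h1).elim
  · exact h1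
  · exact (Dsc_lt hκ h' h h1).elim

theorem exists_good [WellFoundedLT X] (hκ : ℵ₀ ≤ κ) (C : Set X) {m N : ℕ} (h1 : 2 * m ≤ N)
    (h2 : N + 3 ≤ 3 * m) :
    ∃ t, 1 ≤ t ∧ t < m ∧ ∀ i, m + 1 ≤ i → i ≤ N - m + 1 → ¬ Bad κ C t i := by
  by_contra hcon
  push Not at hcon
  choose! i hi1 hi2 hi3 using hcon
  have hcard : (Finset.Icc (m + 1) (N - m + 1)).card < (Finset.Ico 1 m).card := by
    rw [Nat.card_Icc, Nat.card_Ico]
    omega
  obtain ⟨t, ht, t', ht', hne, he⟩ := Finset.exists_ne_map_eq_of_card_lt_of_maps_to hcard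
    (f := i) (fun t ht => by
      rw [Finset.mem_coe, Finset.mem_Ico] at ht
      rw [Finset.mem_coe, Finset.mem_Icc]
      exact ⟨hi1 t ht.1 ht.2, hi2 t ht.1 ht.2⟩)
  rw [Finset.mem_Ico] at ht ht'
  have h3 := hi3 t ht.1 ht.2
  rw [he] at h3
  exact hne (bad_unique hκ h3 (hi3 t' ht'.1 ht'.2))

theorem Sys.cod_below (S : Sys κ n X) {C : Set X} (hC : S.Closed C) {q i : ℕ} {Z : Set X}
    {P : Finset X} {c : X → X} (hP : (P : Set X) ⊆ C) (hc : Set.InjOn c Z)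
    (h : ∀ x ∈ Z, c x ∈ C ∧ c x ∈ lev κ X (i + 1) ∧ x ∈ S.G q (insert (c x) (P : Set X)))
    {ζ : X} (hζ : ζ ∈ C) (hζ' : ζ ∈ lev κ X (i + 1)) :
    S.Cod C (q + 1) i {x ∈ Z | c x < ζ} := by
  exact Dsc_step S hC hP hc h hζ hζ'

theorem Sys.cod_drop [WellFoundedLT X] (S : Sys κ n X) {C : Set X} (hC : S.Closed C) {q i v : ℕ}
    {Z : Set X} (h : S.Cod C q (i + 1) Z) (hZ : succ^[v + 1] κ ≤ #Z) :
    ∃ Z' ⊆ Z, succ^[v] κ ≤ #Z' ∧ S.Cod C (q + 1) i Z' := by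
  obtain ⟨P, c, hP, hc, h⟩ := h
  have h1 : #(c '' Z : Set X) = #Z := Cardinal.mk_image_eq_of_injOn _ _ hc
  have h2 : succ (succ^[v] κ) ≤ #(c '' Z : Set X) := by
    rw [h1, ← Function.iterate_succ_apply' succ v κ]
    exact hZ
  obtain ⟨ζ, ⟨x0, hx0, rfl⟩, h3⟩ := exists_many_below h2
  refine ⟨{x ∈ Z | c x < c x0}, fun x hx => hx.1, ?_, Dsc_step S hC hP hc h (h x0 hx0).1 (h x0 hx0).2.1⟩
  rw [Dsc_card hc]
  exact h3

theorem Sys.cod_keep (S : Sys κ n X) {C : Set X} (hC : S.Closed C) {q i t : ℕ}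
    {Z : Set X} (h : S.Cod C q (i + 1) Z) (hZ : succ^[t] κ ≤ #Z) (hb : ¬ Bad κ C t (i + 1)) :
    ∃ Z' ⊆ Z, succ^[t] κ ≤ #Z' ∧ S.Cod C (q + 1) i Z' := by
  obtain ⟨P, c, hP, hc, h⟩ := h
  have h1 : #(c '' Z : Set X) = #Z := Cardinal.mk_image_eq_of_injOn _ _ hc
  have h2 : c '' Z ⊆ C ∩ lev κ X (i + 1) := by
    rintro _ ⟨x, hx, rfl⟩
    exact ⟨(h x hx).1, (h x hx).2.1⟩
  have h3 : ∃ ζ ∈ C ∩ lev κ X (i + 1), succ^[t] κ ≤ #(c '' Z ∩ Set.Iio ζ : Set X) := by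
    by_contra hcon
    push Not at hcon
    exact hb ⟨c '' Z, h2, by rw [h1]; exact hZ, hcon⟩
  obtain ⟨ζ, hζ, h4⟩ := h3
  refine ⟨{x ∈ Z | c x < ζ}, fun x hx => hx.1, ?_, Dsc_step S hC hP hc h hζ.1 hζ.2⟩
  rw [Dsc_card hc]
  exact h4

theorem Sys.descend [WellFoundedLT X] (S : Sys κ n X) {C : Set X} (hC : S.Closed C)
    {q m t a b : ℕ} {Z : Set X} (h : S.Cod C q (m + b + a) Z) (hZ : succ^[t + a] κ ≤ #Z)
    (hb : ∀ i, m + 1 ≤ i → i ≤ m + b → ¬ Bad κ C t i) :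
    ∃ Z' ⊆ Z, succ^[t] κ ≤ #Z' ∧ S.Cod C (q + a + b) m Z' := by
  induction a generalizing q Z with
  | zero =>
    induction b generalizing q Z with
    | zero => exact ⟨Z, Subset.rfl, hZ, h⟩
    | succ b ih =>
      obtain ⟨Z', h1, h2, h3⟩ := S.cod_keep (i := m + b) (t := t) hC h hZ
        (hb (m + b + 1) (by omega) (by omega))
      obtain ⟨Z'', h4, h5, h6⟩ := ih (q := q + 1) (Z := Z') (fun i h7 h8 => hb i h7 (by omega)) h3 h2
      refine ⟨Z'', h4.trans h1, h5, ?_⟩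
      have e : q + 0 + (b + 1) = q + 1 + 0 + b := by omega
      rw [e]
      exact h6
  | succ a ih =>
    obtain ⟨Z', h1, h2, h3⟩ := S.cod_drop (i := m + b + a) (v := t + a) hC h hZ
    obtain ⟨Z'', h4, h5, h6⟩ := ih (q := q + 1) (Z := Z') h3 h2
    refine ⟨Z'', h4.trans h1, h5, ?_⟩
    have e : q + (a + 1) + b = q + 1 + a + b := by omega
    rw [e]
    exact h6

end Pool.Agent.H45.TH
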