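import Pool.Agent.H45.TH.Cl

/-!
# TH / Enu: enumerations

PROOF. Fix `1 ≤ t < j ≤ m`. With `c = succ^[j] κ`, `c ^ (succ^[t] κ) ≤ c`: `j = i + 1` with `1 ≤ t ≤ i < m`, `c = 2 ^ (succ^[i] κ)` (`h2`), so
`c ^ (succ^[t] κ) = 2 ^ (succ^[i] κ * succ^[t] κ) = 2 ^ (succ^[i] κ) = c` (`Cardinal.power_mul`, `Cardinal.mul_eq_left`, `iter_le`). So there
are at most `c` subsets of `lev κ X j` with at most `succ^[t] κ` elements (`#(lev κ X j) = c`; `Cardinal.mk_bounded_subset_le`, as in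
`exists_enum` of `Pool/Agent/H43/FreeSet/Three.lean`), and there is a function from `lev κ X j` (cardinality `c`) onto them (or: an
injection `J` of the subtype of these subsets into `lev κ X j`, and `E t j β = {x | ∃ A, J A = β ∧ x ∈ A}`). Define `E t j` by choice for
these `t, j`, and `∅` otherwise.
-/

set_option autoImplicit false

open Cardinal Order Set

namespace Pool.Agent.H45.TH

theorem Enu_one {κ : Cardinal.{0}} (hκ : ℵ₀ ≤ κ) {m : ℕ} {X : Type} [LinearOrder X]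
    (h2 : ∀ i, 1 ≤ i → i < m → (2 : Cardinal.{0}) ^ (succ^[i] κ) = succ^[i + 1] κ)
    (hX : ∀ j ≤ m, #(lev κ X j) = succ^[j] κ) (t j : ℕ) (h : 1 ≤ t ∧ t < j ∧ j ≤ m) :
    ∃ E : X → Set X, ∀ B ⊆ lev κ X j, #B ≤ succ^[t] κ → ∃ β ∈ lev κ X j, E β = B := by
  obtain ⟨ht, htj, hjm⟩ := h
  obtain ⟨i, rfl⟩ : ∃ i, j = i + 1 := ⟨j - 1, by omega⟩
  have hc : #(lev κ X (i + 1)) = 2 ^ (succ^[i] κ) := by
    rw [hX _ hjm, h2 i (by omega) (by omega)]
  have h1 : #{s : Set X // s ⊆ lev κ X (i + 1) ∧ #s ≤ succ^[t] κ} ≤ #(lev κ X (i + 1)) := by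
    refine (Cardinal.mk_bounded_subset_le (lev κ X (i + 1)) (succ^[t] κ)).trans ?_
    have h3 : max #(lev κ X (i + 1)) ℵ₀ ≤ 2 ^ (succ^[i] κ) := by
      refine max_le hc.le ?_
      rw [h2 i (by omega) (by omega)]
      exact aleph0_le_iter hκ _
    calc max #(lev κ X (i + 1)) ℵ₀ ^ (succ^[t] κ)
        ≤ (2 ^ (succ^[i] κ)) ^ (succ^[t] κ) := Cardinal.power_le_power_right h3
      _ = 2 ^ (succ^[i] κ * succ^[t] κ) := by rw [Cardinal.power_mul]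
      _ = #(lev κ X (i + 1)) := by
          have h4 : succ^[i] κ * succ^[t] κ = succ^[i] κ :=
            Cardinal.mul_eq_left (aleph0_le_iter hκ i) (iter_le (by omega))
              (ne_of_gt (lt_of_lt_of_le Cardinal.aleph0_pos (aleph0_le_iter hκ t)))
          rw [h4, hc]
  obtain ⟨J⟩ := (Cardinal.le_def _ _).mp h1
  refine ⟨fun β => {x | ∃ A : {s : Set X // s ⊆ lev κ X (i + 1) ∧ #s ≤ succ^[t] κ},
    (J A : X) = β ∧ x ∈ A.1}, ?_⟩
  intro B hB hBc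
  refine ⟨(J ⟨B, hB, hBc⟩ : X), (J ⟨B, hB, hBc⟩).2, ?_⟩
  ext x
  constructor
  · rintro ⟨A, h, hx⟩
    have := J.injective (Subtype.ext h)
    subst this
    exact hx
  · intro hx
    exact ⟨_, rfl, hx⟩

theorem exists_enum {κ : Cardinal.{0}} (hκ : ℵ₀ ≤ κ) {m : ℕ} {X : Type} [LinearOrder X]
    (h2 : ∀ i, 1 ≤ i → i < m → (2 : Cardinal.{0}) ^ (succ^[i] κ) = succ^[i + 1] κ)
    (hX : ∀ j ≤ m, #(lev κ X j) = succ^[j] κ) : ∃ E : ℕ → ℕ → X → Set X, Enum κ m X E := by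
  classical
  refine ⟨fun t j => if h : 1 ≤ t ∧ t < j ∧ j ≤ m then (Enu_one hκ h2 hX t j h).choose
    else fun _ => ∅, ?_⟩
  intro t j h1 h3 h4 B hB hBc
  have h : 1 ≤ t ∧ t < j ∧ j ≤ m := ⟨h1, h3, h4⟩
  simp only [dif_pos h]
  exact (Enu_one hκ h2 hX t j h).choose_spec B hB hBc

end Pool.Agent.H45.TH
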