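import Pool.Agent.H45.TH.Cl

/-!
# TH / Ord: the system on the ordinal `κ^(n+)`

`X = (succ^[n] κ).ord.ToType`.
PROOF of `mk_lev`. For `j < n` let `p` be the element of `X` with index `(succ^[j] κ).ord` (`Ordinal.enum`; `Ordinal.typein_lt_type`). Then
`lev κ X j = Iio p`: `#(Iio x) = (typein (· < ·) x).card` (`Ordinal.typein` is by definition the type of `Iio x`; `Ordinal.card_typein`,
`Cardinal.mk_Iio_ord_toType`), so `#(Iio x) < c ↔ typein x < c.ord` (`Cardinal.lt_ord`), and `#(Iio p) = card (c.ord) = c`. For `j = n`: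
`lev = univ` (`Cardinal.mk_Iio_ord_toType`/`Cardinal.mk_Iio_toType_ord_lt`), `#X = succ^[n] κ`.
PROOF of `exists_sys`. For every `b` the cardinal `ν = #(Iio b) < #X`, and `{x | #(Iio x) < ν}` has cardinality `ν` by the same argument
(`ν.ord < (#X).ord`, it is `Iio p` for the element `p` with index `ν.ord`). So there is an injection `e b` of `Iio b` into
`{x | #(Iio x) < ν}` (extended by anything), `d b` a left inverse (`Function.invFunOn`). If `b ∈ lev (j+1)`, then `ν ≤ succ^[j] κ`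
(`lt_iter_succ`), so `#(Iio (e b a)) < ν ≤ succ^[j] κ`. `z` is the least element (`#(Iio z) = 0`). `top`, `card_lev`: `mk_lev`.
-/

set_option autoImplicit false

open Cardinal Order Set

namespace Pool.Agent.H45.TH

lemma Ord_seg {c0 c : Cardinal.{0}} (h : c < c0) : ∃ p : c0.ord.ToType,
    {x : c0.ord.ToType | #(Set.Iio x) < c} = Set.Iio p ∧ #(Set.Iio p) = c := by
  have hlt : c.ord < Ordinal.type (α := c0.ord.ToType) (· < ·) := by
    rw [Ordinal.type_toType]
    exact Cardinal.ord_lt_ord.2 h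
  obtain ⟨p, hp⟩ := Ordinal.typein_surj (α := c0.ord.ToType) (· < ·) hlt
  have hcard : ∀ x : c0.ord.ToType,
      #(Set.Iio x) = (Ordinal.typein (α := c0.ord.ToType) (· < ·) x).card := fun x => rfl
  refine ⟨p, ?_, ?_⟩
  · ext x
    change #(Set.Iio x) < c ↔ x < p
    rw [hcard, ← Cardinal.lt_ord, ← hp, Ordinal.typein_lt_typein]
  · rw [hcard, hp, Cardinal.card_ord]

theorem mk_lev {κ : Cardinal.{0}} (hκ : ℵ₀ ≤ κ) {n j : ℕ} (hj : j ≤ n) :
    #(lev κ (succ^[n] κ).ord.ToType j) = succ^[j] κ := by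
  rcases Nat.lt_or_eq_of_le hj with h | h
  · obtain ⟨p, h1, h2⟩ := Ord_seg (iter_lt (κ := κ) h)
    have : lev κ (succ^[n] κ).ord.ToType j = Set.Iio p := h1
    rw [this, h2]
  · subst h
    have : lev κ (succ^[j] κ).ord.ToType j = Set.univ := by
      ext x
      exact ⟨fun _ => trivial, fun _ => mk_Iio_toType_ord_lt x⟩
    rw [this, mk_univ, mk_ord_toType]

lemma Ord_inj (c0 : Cardinal.{0}) (b : c0.ord.ToType) : ∃ f : c0.ord.ToType → c0.ord.ToType,
    Set.InjOn f (Set.Iio b) ∧ ∀ a, a < b → #(Set.Iio (f a)) < #(Set.Iio b) := by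
  classical
  obtain ⟨p, h1, h2⟩ := Ord_seg (mk_Iio_toType_ord_lt b)
  obtain ⟨g⟩ := Cardinal.eq.1 h2.symm
  refine ⟨fun a => if h : a < b then (g ⟨a, h⟩ : c0.ord.ToType) else a, ?_, ?_⟩
  · intro x hx y hy hxy
    have hx' : x < b := hx
    have hy' : y < b := hy
    simp only [dif_pos hx', dif_pos hy'] at hxy
    have := g.injective (Subtype.ext hxy)
    exact congrArg Subtype.val this
  · intro a ha
    simp only [dif_pos ha]
    have hmem : (g ⟨a, ha⟩ : c0.ord.ToType) ∈ {x : c0.ord.ToType | #(Set.Iio x) < #(Set.Iio b)} :=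
      h1.symm.subset (g ⟨a, ha⟩).2
    exact hmem

theorem exists_sys {κ : Cardinal.{0}} (hκ : ℵ₀ ≤ κ) (n : ℕ) :
    Nonempty (Sys κ n (succ^[n] κ).ord.ToType) := by
  classical
  have hpos : ∀ j, 0 < succ^[j] κ := fun j => lt_of_lt_of_le Cardinal.aleph0_pos (aleph0_le_iter hκ j)
  obtain ⟨z, -, hz⟩ := Ord_seg (hpos n)
  have : Nonempty (succ^[n] κ).ord.ToType := ⟨z⟩
  choose e he1 he2 using Ord_inj (succ^[n] κ)
  refine ⟨{ e := e, d := fun b => Function.invFunOn (e b) (Set.Iio b), z := z, d_e := ?_, e_lev := ?_,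
            z_lev := ?_, top := ?_, card_lev := ?_ }⟩
  · intro b a hab
    exact (he1 b).leftInvOn_invFunOn hab
  · intro j b a hab hb
    have h1 : #(Set.Iio b) ≤ succ^[j] κ := lt_iter_succ.1 hb
    exact lt_of_lt_of_le (he2 b a hab) h1
  · intro j
    change #(Set.Iio z) < succ^[j] κ
    rw [hz]
    exact hpos j
  · intro x
    exact mk_Iio_toType_ord_lt x
  · intro j hj
    exact (mk_lev hκ hj).le

end Pool.Agent.H45.TH
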