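import Pool.Agent.H45.TH.Cl
import Pool.Agent.H43.FreeSet.Three

/-!
# TH / Rep: the killing functions

PROOF. Fix `t` and `Y` (choice), `1 ≤ t < m ≤ n`, `H = S.H t Y`, `#H ≤ succ^[t] κ` (`mk_H_le`, `Y` finite). The index type
`I = {i : Finset H × ℕ × Fin (m + 1) × H × H × Bool // succ^[t] κ ≤ #(S.D R i.1 l (E t j β))}` (`P` the image of the finset of `H`, `u` the
second element of `H`) has `#I ≤ succ^[t] κ` (`Cardinal.mk_finset_of_infinite` or `Cardinal.mk_finset_le`...; `H` may be taken infinite: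
it contains level 1, or use `Cardinal.mk_list_le_max`/`Finset` as image of lists; products by `Cardinal.mul_eq_self`). By
`H43.FreeSet.exists_inj_choice` (with `F = ∅`, sets `A i = S.D ..`) there is an injective `rep : I → X` with `rep i ∈ A i`. Define
`k t Y x = u` if `x = rep i` for the (unique) index `i` with last entries `(u, ε)`, and `S.z` otherwise (`Function.extend rep (fun i => u)`,
`Function.Injective.extend_apply`). For given `P, l, j, β, u` the indices with `ε = true` and `ε = false` give `e0 ≠ e1`.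
-/

set_option autoImplicit false

open Cardinal Order Set

namespace Pool.Agent.H45.TH

theorem Rep_prod {A B : Type} {c : Cardinal.{0}} (hc : ℵ₀ ≤ c) (hA : #A ≤ c) (hB : #B ≤ c) :
    #(A × B) ≤ c := by
  rw [Cardinal.mk_prod, Cardinal.lift_id, Cardinal.lift_id]
  exact (mul_le_mul' hA hB).trans (Cardinal.mul_eq_self hc).le

theorem Rep_finset {A : Type} {c : Cardinal.{0}} (hc : ℵ₀ ≤ c) (hA : #A ≤ c) : #(Finset A) ≤ c := by
  rcases finite_or_infinite A with h | h
  · exact (Cardinal.lt_aleph0_of_finite (Finset A)).le.trans hc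
  · rw [Cardinal.mk_finset_of_infinite]
    exact hA

theorem Rep_fin {A : Type} [Finite A] {c : Cardinal.{0}} (hc : ℵ₀ ≤ c) : #A ≤ c :=
  (Cardinal.lt_aleph0_of_finite A).le.trans hc

theorem Rep_one {κ : Cardinal.{0}} (hκ : ℵ₀ ≤ κ) {n : ℕ} {X : Type} [LinearOrder X]
    (S : Sys κ n X) (R m : ℕ) (hmn : m ≤ n) (E : ℕ → ℕ → X → Set X) (t : ℕ) (Y : Finset X) :
    ∃ g : X → X, 1 ≤ t → t < m → ∀ P : Finset X, (P : Set X) ⊆ S.H t Y → ∀ l j, j ≤ m → ∀ β ∈ S.H t Y,
    succ^[t] κ ≤ #(S.D R P l (E t j β)) → ∀ u ∈ S.H t Y,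
      ∃ e0 ∈ S.D R P l (E t j β), ∃ e1 ∈ S.D R P l (E t j β), e0 ≠ e1 ∧ g e0 = u ∧ g e1 = u := by
  classical
  by_cases htm : t < m
  swap
  · exact ⟨fun x => x, fun _ h => absurd h htm⟩
  have hμ := aleph0_le_iter hκ t
  have hY : #(↑(Y : Set X) : Type) ≤ succ^[t] κ := Rep_fin hμ
  have hH : #(S.H t (Y : Set X)) ≤ succ^[t] κ := S.mk_H_le hκ (by omega) hY
  set A : (Finset (S.H t (Y : Set X)) × ℕ × Fin (m + 1) × (S.H t (Y : Set X)) × (S.H t (Y : Set X)) × Bool) → Set X :=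
    fun i => S.D R (Subtype.val '' (i.1 : Set (S.H t (Y : Set X)))) i.2.1 (E t i.2.2.1 i.2.2.2.1) with hA
  have hcard : #{i // succ^[t] κ ≤ #(A i)} ≤ succ^[t] κ := by
    refine (Cardinal.mk_subtype_le _).trans ?_
    refine Rep_prod hμ (Rep_finset hμ hH) (Rep_prod hμ ?_ (Rep_prod hμ (Rep_fin hμ) (Rep_prod hμ hH
      (Rep_prod hμ hH (Rep_fin hμ)))))
    rw [Cardinal.mk_nat]
    exact hμ
  obtain ⟨rep, hinj, hrep⟩ := H43.FreeSet.exists_inj_choice hμ hcard (fun i => A i.1) (fun i => i.2) ∅ finite_empty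
  refine ⟨Function.extend rep (fun i => (i.1.2.2.2.2.1 : X)) (fun _ => S.z), fun _ _ => ?_⟩
  intro P hP l j hj β hβ hD u hu
  have himg : Subtype.val '' ((P.preimage Subtype.val (Subtype.val_injective.injOn) :
      Finset (S.H t (Y : Set X))) : Set (S.H t (Y : Set X))) = (P : Set X) := by
    rw [Finset.coe_preimage, Subtype.image_preimage_coe]
    exact inter_eq_right.2 hP
  have hAi : ∀ b : Bool, A (P.preimage Subtype.val (Subtype.val_injective.injOn), l, ⟨j, Nat.lt_succ_of_le hj⟩,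
      ⟨β, hβ⟩, ⟨u, hu⟩, b) = S.D R P l (E t j β) := by
    intro b
    rw [hA]
    show S.D R (Subtype.val '' ((P.preimage Subtype.val (Subtype.val_injective.injOn) :
      Finset (S.H t (Y : Set X))) : Set (S.H t (Y : Set X)))) l (E t j β) = _
    rw [himg]
  have hmem : ∀ b : Bool, succ^[t] κ ≤ #(A (P.preimage Subtype.val (Subtype.val_injective.injOn), l,
      ⟨j, Nat.lt_succ_of_le hj⟩, ⟨β, hβ⟩, ⟨u, hu⟩, b)) := by
    intro b
    rw [hAi b]
    exact hD
  have hin : ∀ b : Bool, rep ⟨_, hmem b⟩ ∈ S.D R P l (E t j β) := by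
    intro b
    rw [← hAi b]
    exact (hrep ⟨_, hmem b⟩).1
  refine ⟨rep ⟨_, hmem true⟩, hin true, rep ⟨_, hmem false⟩, hin false, ?_, ?_, ?_⟩
  · intro h
    have h2 := hinj h
    rw [Subtype.mk.injEq] at h2
    simp at h2
  · rw [hinj.extend_apply]
  · rw [hinj.extend_apply]

theorem exists_killFn {κ : Cardinal.{0}} (hκ : ℵ₀ ≤ κ) {n : ℕ} {X : Type} [LinearOrder X]
    (S : Sys κ n X) (R m : ℕ) (hmn : m ≤ n) (E : ℕ → ℕ → X → Set X) :
    ∃ k : ℕ → Finset X → X → X, S.KillFn R m E k := by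
  choose g hg using Rep_one hκ S R m hmn E
  exact ⟨g, fun t h1 h2 Y => hg t Y h1 h2⟩

end Pool.Agent.H45.TH
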