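import Pool.Agent.H45.TH.Chg
import Pool.Agent.H45.TH.Ord
import Pool.Agent.H45.TH.Enu
import Pool.Agent.H45.TH.Rep
import Pool.Agent.H54.FS.StepMap

/-!
# TH / Fin: the theorem
-/

set_option autoImplicit false

open Cardinal Order Set

namespace Pool.Agent.H45.TH

open Pool.Agent.H46.FS Pool.Agent.H54.FS

theorem noFree_third {κ : Cardinal.{0}} (hκ : ℵ₀ ≤ κ) {m n : ℕ} (hm : 2 ≤ m) (hmn : m ≤ n)
    (h3 : n + 3 ≤ 3 * m)
    (h2 : ∀ i, 1 ≤ i → i < m → (2 : Cardinal.{0}) ^ (succ^[i] κ) = succ^[i + 1] κ) :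
    NoFree (succ^[m - 1] κ) n (succ^[n] κ).ord.ToType := by
  classical
  obtain ⟨S⟩ := exists_sys hκ n
  obtain ⟨E, hE⟩ := exists_enum (X := (succ^[n] κ).ord.ToType) hκ h2
    (fun j hj => mk_lev hκ (hj.trans hmn))
  obtain ⟨k, hk⟩ := exists_killFn hκ S (2 ^ (n + 1)) m hmn E
  have hms : succ (succ^[m - 1] κ) = succ^[m] κ := by
    obtain ⟨v, rfl⟩ : ∃ v, m = v + 1 := ⟨m - 1, by omega⟩
    rw [Nat.add_sub_cancel, Function.iterate_succ_apply']
  refine ⟨S.f (2 ^ (n + 1)) m k, ?_, ?_⟩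
  · intro Y
    refine ⟨S.f_finite _ _ _ Y, ?_⟩
    rw [Set.disjoint_left]
    intro y hy hy'
    exact hy'.1 hy
  · intro m' hm' T hT
    rw [hms] at hT
    by_contra hcon
    push Not at hcon
    have hTinf : T.Infinite := by
      rw [← Set.infinite_coe_iff, Cardinal.infinite_iff]
      exact (aleph0_le_iter hκ m).trans hT
    have hfree : S.Free (2 ^ (n + 1)) m k T := by
      refine S.free_of_all hTinf hm' ?_
      intro Y hYc hYT u huT hu
      exact hcon Y hYc hYT u huT hu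
    exact S.main_free hκ le_rfl hE hk hfree hT hm hmn h3

/-- a set of size at most `κ1` has no large free sets -/
lemma noFree_small {κ1 : Cardinal.{0}} (m0 : ℕ) (X : Type) (hX : #X ≤ κ1) : NoFree κ1 m0 X := by
  refine ⟨fun _ => ∅, fun Y => ⟨Set.finite_empty, by simp⟩, ?_⟩
  intro m _ T hT
  exact absurd (hT.trans ((Cardinal.mk_set_le T).trans hX)) (not_le.2 (lt_succ κ1))

theorem noFree_all {κ : Cardinal.{0}} (hκ : ℵ₀ ≤ κ) {m : ℕ} (hm : 2 ≤ m)
    (h2 : ∀ i, 1 ≤ i → i < m → (2 : Cardinal.{0}) ^ (succ^[i] κ) = succ^[i + 1] κ) (n : ℕ)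
    (hsq : ∀ i, 3 * m - 3 ≤ i → i < n → Square (succ^[i] κ)) :
    NoFree (succ^[m - 1] κ) n (succ^[n] κ).ord.ToType := by
  by_cases hn : n < m
  · refine noFree_small n _ ?_
    rw [Cardinal.mk_ord_toType]
    exact iter_le (by omega)
  · rw [not_lt] at hn
    by_cases h3 : n ≤ 3 * m - 3
    · exact noFree_third hκ hm hn (by omega) h2
    · rw [not_le] at h3
      have key : ∀ q, 3 * m - 3 ≤ q → (∀ i, 3 * m - 3 ≤ i → i < q → Square (succ^[i] κ)) →
          NoFree (succ^[m - 1] κ) q (succ^[q] κ).ord.ToType := by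
        intro q hq
        induction q, hq using Nat.le_induction with
        | base =>
          intro _
          exact noFree_third hκ hm (by omega) (by omega) h2
        | succ q hq ih =>
          intro hs
          have h1 := ih (fun i hi hiq => hs i hi (hiq.trans (Nat.lt_succ_self q)))
          have h4 : succ (succ^[m - 1] κ) ≤ succ^[q] κ := by
            rw [← Function.iterate_succ_apply' succ (m - 1) κ]
            exact iter_le (by omega)
          have h5 := noFree_step (aleph0_le_iter hκ (m - 1)) h4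
            (hs q hq (Nat.lt_succ_self q)) (m := q) (by omega) h1
          rw [Function.iterate_succ_apply']
          exact h5
      exact key n h3.le hsq

theorem exists_map {κ : Cardinal.{0}} (hκ : ℵ₀ ≤ κ) {m : ℕ} (hm : 2 ≤ m)
    (h2 : ∀ i, 1 ≤ i → i < m → (2 : Cardinal.{0}) ^ (succ^[i] κ) = succ^[i + 1] κ) (n : ℕ)
    (hsq : ∀ i, 3 * m - 3 ≤ i → i < n → Square (succ^[i] κ)) (S : Type) (hS : #S = succ^[n] κ) :
    ∃ f : Finset S → Set S,
      (∀ X : Finset S, (f X).Finite ∧ Disjoint (X : Set S) (f X)) ∧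
      ∀ n' : ℕ, n ≤ n' → ∀ T : Set S,
        (∀ X : Finset S, X.card = n' → (X : Set S) ⊆ T → Disjoint T (f X)) →
        #T < succ^[m] κ := by
  obtain ⟨e⟩ : Nonempty ((succ^[n] κ).ord.ToType ≃ S) := by
    rw [← Cardinal.eq, Cardinal.mk_ord_toType, hS]
  have hms : succ (succ^[m - 1] κ) = succ^[m] κ := by
    obtain ⟨v, rfl⟩ : ∃ v, m = v + 1 := ⟨m - 1, by omega⟩
    rw [Nat.add_sub_cancel, Function.iterate_succ_apply']
  have h := ((noFree_all hκ hm h2 n hsq).congr e).toMap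
  rwa [hms] at h

end Pool.Agent.H45.TH
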