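import Pool.Agent.H45.TH.Cl

/-!
# TH / Kil: killing a free set

PROOF of `kill`. By `hk` there are `e0 ≠ e1` in `D` with `k t Y e0 = u = k t Y e1`. `F e0` and `F e1` are disjoint, so `u ∉ F ei` for one of
them, `e`. Let `Y₁ = Y ∪ F e`: `Y₁ ⊆ T`, `Y₁.card ≤ n`, `u ∉ Y₁`, and `e ∈ G R (F e) ⊆ G R Y₁`, so `u ∈ f Y₁` (second alternative, with
`Y' = Y ⊆ Y₁`), against `hT`.

`free_G`: `u ∈ G r Y ⊆ G R Y` is the first alternative.

`f_finite`: `f Y ⊆ G R Y ∪ ⋃ t < m, ⋃ Y' ∈ Y.powerset, k t Y' '' (G R Y)`.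

`free_of_all`: `T` is infinite and has no `u ∈ f Y` for `Y ⊆ T` with exactly `m'` elements, `m' ≥ n`; then it is `Free`: let `Y ⊆ T`,
`Y.card ≤ n`, `u ∈ T`, `u ∈ f Y` (so `u ∉ Y`); choose `Y ⊆ Y₁ ⊆ T`, `Y₁.card = m'`, `u ∉ Y₁` (`Set.Infinite.exists_subset_card_eq` for
`T \ (Y ∪ {u})`); `f` is monotone apart from the condition `u ∉ Y₁`, so `u ∈ f Y₁`.
-/

set_option autoImplicit false

open Cardinal Order Set

namespace Pool.Agent.H45.TH

variable {κ : Cardinal.{0}} {n : ℕ} {X : Type} [LinearOrder X]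

lemma Kil_f_mono (S : Sys κ n X) {R m : ℕ} {k : ℕ → Finset X → X → X} {Y Y₁ : Finset X}
    (h : Y ⊆ Y₁) {u : X} (hu : u ∉ Y₁) (hf : u ∈ S.f R m k Y) : u ∈ S.f R m k Y₁ := by
  have hc : (Y : Set X) ⊆ (Y₁ : Set X) := Finset.coe_subset.2 h
  obtain ⟨_, h1⟩ := hf
  refine ⟨hu, ?_⟩
  rcases h1 with h1 | ⟨t, ht, Y', hY', e, he, hk⟩
  · exact Or.inl (S.G_mono hc R h1)
  · exact Or.inr ⟨t, ht, Y', hY'.trans h, e, S.G_mono hc R he, hk⟩

theorem Sys.kill (S : Sys κ n X) {R m : ℕ} {E : ℕ → ℕ → X → Set X} {k : ℕ → Finset X → X → X}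
    (hk : S.KillFn R m E k) {T : Set X} (hT : S.Free R m k T) {t : ℕ} (ht : 1 ≤ t) (htm : t < m)
    {Y : Finset X} (hY : (Y : Set X) ⊆ T) (hYc : Y.card + t ≤ n) {u : X} (huT : u ∈ T) (huY : u ∉ Y)
    (hu : u ∈ S.H t Y) {P : Finset X} (hP : (P : Set X) ⊆ S.H t Y) {l j : ℕ} {β : X} (hj : j ≤ m)
    (hβ : β ∈ S.H t Y) (hA : succ^[t] κ ≤ #(S.D R P l (E t j β))) (F : X → Finset X)
    (hF : ∀ e ∈ S.D R P l (E t j β), (F e : Set X) ⊆ T ∧ (F e).card ≤ t ∧ e ∈ S.G R (F e))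
    (hdis : ∀ e ∈ S.D R P l (E t j β), ∀ e' ∈ S.D R P l (E t j β), e ≠ e' →
      Disjoint (F e) (F e')) : False := by
  obtain ⟨e0, he0, e1, he1, hne, hk0, hk1⟩ := hk t ht htm Y P hP l j hj β hβ hA u hu
  have key : ∀ e ∈ S.D R P l (E t j β), k t Y e = u → u ∈ F e := by
    intro e he hke
    by_contra hue
    obtain ⟨h1, h2, h3⟩ := hF e he
    have h4 : ((Y ∪ F e : Finset X) : Set X) ⊆ T := by
      rw [Finset.coe_union]
      exact union_subset hY h1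
    have h5 : (Y ∪ F e).card ≤ n := (Finset.card_union_le _ _).trans (by omega)
    refine hT (Y ∪ F e) h4 h5 u huT ⟨?_, Or.inr ⟨t, htm, Y, Finset.subset_union_left, e, ?_, hke⟩⟩
    · rw [Finset.mem_union, not_or]
      exact ⟨huY, hue⟩
    · exact S.G_mono (Finset.coe_subset.2 Finset.subset_union_right) R h3
  exact Finset.disjoint_left.1 (hdis e0 he0 e1 he1 hne) (key e0 he0 hk0) (key e1 he1 hk1)

theorem Sys.free_G (S : Sys κ n X) {R m : ℕ} {k : ℕ → Finset X → X → X} {T : Set X}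
    (hT : S.Free R m k T) {Y : Finset X} (hY : (Y : Set X) ⊆ T) (hYc : Y.card ≤ n) {u : X}
    (huT : u ∈ T) (huY : u ∉ Y) {r : ℕ} (hr : r ≤ R) (hu : u ∈ S.G r Y) : False :=
  hT Y hY hYc u huT ⟨huY, Or.inl (S.G_le hr _ hu)⟩

theorem Sys.f_finite (S : Sys κ n X) (R m : ℕ) (k : ℕ → Finset X → X → X) (Y : Finset X) :
    (S.f R m k Y).Finite := by
  have hG : (S.G R (Y : Set X)).Finite := S.G_finite Y.finite_toSet R
  refine (hG.union ((finite_lt_nat m).biUnion fun t _ =>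
    (Y.powerset.finite_toSet).biUnion fun Y' _ => hG.image (k t Y'))).subset ?_
  rintro u ⟨_, h1 | ⟨t, ht, Y', hY', e, he, hk⟩⟩
  · exact Or.inl h1
  · refine Or.inr ?_
    rw [mem_iUnion₂]
    refine ⟨t, ht, ?_⟩
    rw [mem_iUnion₂]
    exact ⟨Y', by rw [Finset.mem_coe, Finset.mem_powerset]; exact hY', e, he, hk⟩

theorem Sys.free_of_all (S : Sys κ n X) {R m : ℕ} {k : ℕ → Finset X → X → X} {T : Set X}
    (hTi : T.Infinite) {m' : ℕ} (hm' : n ≤ m')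
    (h : ∀ Y : Finset X, Y.card = m' → (Y : Set X) ⊆ T → ∀ u ∈ T, u ∉ S.f R m k Y) :
    S.Free R m k T := by
  intro Y hY hYc u huT hf
  have hfin : ((insert u Y : Finset X) : Set X).Finite := Finset.finite_toSet _
  obtain ⟨Z, hZ, hZc⟩ := (hTi.diff hfin).exists_subset_card_eq (m' - Y.card)
  have hdis : Disjoint Y Z := by
    rw [Finset.disjoint_left]
    intro a ha haZ
    exact (hZ haZ).2 (by rw [Finset.mem_coe, Finset.mem_insert]; exact Or.inr ha)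
  have hu1 : u ∉ Y ∪ Z := by
    rw [Finset.mem_union, not_or]
    refine ⟨hf.1, fun huZ => (hZ huZ).2 ?_⟩
    rw [Finset.mem_coe, Finset.mem_insert]
    exact Or.inl rfl
  refine h (Y ∪ Z) ?_ ?_ u huT (Kil_f_mono S Finset.subset_union_left hu1 hf)
  · rw [Finset.card_union_of_disjoint hdis, hZc]
    omega
  · rw [Finset.coe_union]
    exact union_subset hY fun a ha => (hZ ha).1

end Pool.Agent.H45.TH
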