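import Pool.Agent.H45.TH.Cl

/-!
# TH / Kur: Kuratowski codes

* `kp_base`: `E = {x}`, `γ = x` (`S.top`), `G 0 U = U`.
* `kp_step`: let `F ⊆ Z`, `F.card = s + 1`. For every `a ∈ F` the hypothesis for `F.erase a` gives `x a ∈ F.erase a`, `γ a ∈ lev (j+1)`,
  `γ a ∈ G r (F.erase a ∪ W)` and `x a ∈ G r (insert (γ a) (((F.erase a).erase (x a)) ∪ W))`. Let `a ∈ F` have minimal `γ a`
  (`Finset.exists_min_image`), `b = x a ∈ F`, `b ≠ a`; then `γ a ≤ γ b`. The element `b` works for `F`.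
  - If `γ a < γ b`: the code is `δ = S.e (γ b) (γ a) ∈ lev j` (`S.e_lev`). `δ ∈ G (r+1) (F ∪ W)` (`e_mem_G`, `G_mono`), `r + 1 ≤ 2r + 1`.
    Put `V = insert δ (F.erase b ∪ W)`: `γ b ∈ G r (F.erase b ∪ W) ⊆ G r V`, `δ ∈ G r V`, so `γ a = S.d (γ b) δ ∈ G (r+1) V` (`S.d_e`,
    `d_mem_G`), and `b ∈ G r (insert (γ a) (...)) ⊆ G r (G (r+1) V) = G (2r+1) V` (`(F.erase a).erase b ⊆ F.erase b`; `G_trans`).
  - If `γ a = γ b`: the code is `S.z` (`S.z_lev`, `z_mem_G`), and `b ∈ G r (insert (γ b) ...) ⊆ G r (G r V) ⊆ G (2r+1) V`.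
* `kp_iter`: induction on `i`, `kp_step`, `2 * (2^i*(r+1) - 1) + 1 = 2^(i+1)*(r+1) - 1`.
* `kp_hull`: strong induction on `F.card`. If `F.card ≤ s` take `Y = F`. Otherwise choose `E ⊆ F` with `E.card = s + 1`
  (`Finset.exists_subset_card_eq`), `x ∈ E` coded by the others: by induction `F.erase x` has `Y ⊆ F.erase x`, `Y.card ≤ s`,
  `F.erase x ⊆ H j (Y ∪ W)`, and `x ∈ G r (insert γ (E.erase x ∪ W)) ⊆ H j (Y ∪ W)` by `G_sub_H` (`lev_subset_H`, `subset_H`).
-/

set_option autoImplicit false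

open Cardinal Order Set

namespace Pool.Agent.H45.TH

variable {κ : Cardinal.{0}} {n : ℕ} {X : Type} [LinearOrder X] (S : Sys κ n X)

theorem Sys.kp_base (Z W : Set X) : S.KP 0 1 n Z W := by
  intro E _ hE
  obtain ⟨x, rfl⟩ := Finset.card_eq_one.1 hE
  refine ⟨x, Finset.mem_singleton_self x, x, S.top x, ?_, ?_⟩
  · rw [Sys.G_zero]
    exact Or.inl (by simp)
  · rw [Sys.G_zero]
    exact Set.mem_insert _ _

theorem Sys.kp_step {r s j : ℕ} {Z W : Set X} (h : S.KP r s (j + 1) Z W) :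
    S.KP (2 * r + 1) (s + 1) j Z W := by
  intro F hF hcard
  have : Nonempty X := ⟨S.z⟩
  have H : ∀ a, a ∈ F → ∃ x, x ∈ F.erase a ∧ ∃ γ, γ ∈ lev κ X (j + 1) ∧
      γ ∈ S.G r (↑(F.erase a) ∪ W) ∧ x ∈ S.G r (insert γ (↑((F.erase a).erase x) ∪ W)) := by
    intro a ha
    have h1 : ((F.erase a : Finset X) : Set X) ⊆ Z :=
      (Finset.coe_subset.2 (Finset.erase_subset a F)).trans hF
    have h2 : (F.erase a).card = s := by
      rw [Finset.card_erase_of_mem ha, hcard]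
      rfl
    obtain ⟨x, hx, γ, hγ, hγ1, hγ2⟩ := h (F.erase a) h1 h2
    exact ⟨x, hx, γ, hγ, hγ1, hγ2⟩
  choose! x hx γ hγ hγ1 hγ2 using H
  have hne : F.Nonempty := by
    rw [← Finset.card_pos, hcard]
    exact Nat.succ_pos s
  obtain ⟨a, ha, hmin⟩ := Finset.exists_min_image F γ hne
  have hb : x a ∈ F := Finset.mem_of_mem_erase (hx a ha)
  have hle : γ a ≤ γ (x a) := hmin (x a) hb
  have hsubE : ∀ c, ((F.erase c : Finset X) : Set X) ∪ W ⊆ ↑F ∪ W := fun c =>
    union_subset_union_left _ (Finset.coe_subset.2 (Finset.erase_subset c F))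
  have hsub2 : ((F.erase a).erase (x a) : Set X) ⊆ ((F.erase (x a) : Finset X) : Set X) := by
    intro y hy
    rw [Finset.coe_erase, Finset.coe_erase] at *
    exact ⟨hy.1.1, hy.2⟩
  rcases hle.lt_or_eq with hlt | heq
  · -- the code is `e (γ b) (γ a)`
    refine ⟨x a, hb, S.e (γ (x a)) (γ a), S.e_lev j _ _ hlt (hγ (x a) hb), ?_, ?_⟩
    · have e1 : γ a ∈ S.G r (↑F ∪ W) := S.G_mono (hsubE a) r (hγ1 a ha)
      have e2 : γ (x a) ∈ S.G r (↑F ∪ W) := S.G_mono (hsubE (x a)) r (hγ1 (x a) hb)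
      exact S.G_le (by omega) _ (S.e_mem_G e1 e2)
    · have hV1 : ((F.erase (x a) : Finset X) : Set X) ∪ W ⊆
          insert (S.e (γ (x a)) (γ a)) (↑(F.erase (x a)) ∪ W) := Set.subset_insert _ _
      have e2 : γ (x a) ∈ S.G r (insert (S.e (γ (x a)) (γ a)) (↑(F.erase (x a)) ∪ W)) :=
        S.G_mono hV1 r (hγ1 (x a) hb)
      have e3 : S.e (γ (x a)) (γ a) ∈
          S.G r (insert (S.e (γ (x a)) (γ a)) (↑(F.erase (x a)) ∪ W)) :=
        S.subset_G r _ (Set.mem_insert _ _)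
      have e4 : γ a ∈ S.G (r + 1) (insert (S.e (γ (x a)) (γ a)) (↑(F.erase (x a)) ∪ W)) := by
        have := S.d_mem_G e3 e2
        rwa [S.d_e _ _ hlt] at this
      have e5 : (insert (γ a) (↑((F.erase a).erase (x a)) ∪ W) : Set X) ⊆
          S.G (r + 1) (insert (S.e (γ (x a)) (γ a)) (↑(F.erase (x a)) ∪ W)) := by
        rw [Set.insert_subset_iff]
        refine ⟨e4, (Set.Subset.trans ?_ hV1).trans (S.subset_G (r + 1) _)⟩
        exact union_subset_union_left _ hsub2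
      have e6 := S.G_trans e5 r (hγ2 a ha)
      have e7 : r + (r + 1) = 2 * r + 1 := by omega
      rwa [e7] at e6
  · -- the code is `z`
    refine ⟨x a, hb, S.z, S.z_lev j, S.z_mem_G _ _, ?_⟩
    have hV1 : ((F.erase (x a) : Finset X) : Set X) ∪ W ⊆
        insert S.z (↑(F.erase (x a)) ∪ W) := Set.subset_insert _ _
    have e2 : γ a ∈ S.G r (insert S.z (↑(F.erase (x a)) ∪ W)) := by
      rw [heq]
      exact S.G_mono hV1 r (hγ1 (x a) hb)
    have e5 : (insert (γ a) (↑((F.erase a).erase (x a)) ∪ W) : Set X) ⊆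
        S.G r (insert S.z (↑(F.erase (x a)) ∪ W)) := by
      rw [Set.insert_subset_iff]
      refine ⟨e2, (Set.Subset.trans ?_ hV1).trans (S.subset_G r _)⟩
      exact union_subset_union_left _ hsub2
    exact S.G_le (by omega) _ (S.G_trans e5 r (hγ2 a ha))

theorem Sys.kp_iter {r s j : ℕ} {Z W : Set X} (i : ℕ) (h : S.KP r s (j + i) Z W) :
    S.KP (2 ^ i * (r + 1) - 1) (s + i) j Z W := by
  induction i generalizing j with
  | zero =>
    have e : 2 ^ 0 * (r + 1) - 1 = r := by simp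
    rw [e]
    exact h
  | succ i ih =>
    have h1 : S.KP r s ((j + 1) + i) Z W := by
      have e : j + 1 + i = j + (i + 1) := by omega
      rw [e]
      exact h
    have h2 := S.kp_step (ih h1)
    have hpos : 1 ≤ 2 ^ i * (r + 1) := Nat.mul_pos (by positivity) (Nat.succ_pos r)
    have e : 2 * (2 ^ i * (r + 1) - 1) + 1 = 2 ^ (i + 1) * (r + 1) - 1 := by
      have e1 : 2 ^ (i + 1) * (r + 1) = 2 * (2 ^ i * (r + 1)) := by
        rw [pow_succ]
        ring
      rw [e1]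
      omega
    rw [e] at h2
    exact h2

theorem Sys.kp_mono {r r' s j : ℕ} {Z Z' W : Set X} (hr : r ≤ r') (hZ : Z' ⊆ Z)
    (h : S.KP r s j Z W) : S.KP r' s j Z' W := by
  intro E hE hc
  obtain ⟨x, hx, γ, hγ, h1, h2⟩ := h E (hE.trans hZ) hc
  exact ⟨x, hx, γ, hγ, S.G_le hr _ h1, S.G_le hr _ h2⟩

theorem Sys.kp_hull {r s j : ℕ} {Z W : Set X} (h : S.KP r (s + 1) j Z W) (F : Finset X)
    (hF : (F : Set X) ⊆ Z) :
    ∃ Y : Finset X, Y ⊆ F ∧ Y.card ≤ s ∧ (F : Set X) ⊆ S.H j (↑Y ∪ W) := by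
  induction hn : F.card using Nat.strong_induction_on generalizing F with
  | _ m ih =>
    by_cases hm : F.card ≤ s
    · exact ⟨F, Finset.Subset.refl F, hm, subset_union_left.trans (S.subset_H j _)⟩
    · obtain ⟨E, hEF, hEc⟩ := Finset.exists_subset_card_eq (show s + 1 ≤ F.card by omega)
      obtain ⟨x, hx, γ, hγ, -, hxG⟩ := h E ((Finset.coe_subset.2 hEF).trans hF) hEc
      have hxF : x ∈ F := hEF hx
      have hcard : (F.erase x).card < m := by
        rw [Finset.card_erase_of_mem hxF, ← hn]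
        have := Finset.card_pos.2 ⟨x, hxF⟩
        omega
      obtain ⟨Y, hY1, hY2, hY3⟩ := ih _ hcard (F.erase x)
        ((Finset.coe_subset.2 (Finset.erase_subset x F)).trans hF) rfl
      refine ⟨Y, hY1.trans (Finset.erase_subset x F), hY2, ?_⟩
      intro y hy
      by_cases hyx : y = x
      · subst hyx
        refine S.G_sub_H (t := j) ?_ r hxG
        rw [Set.insert_subset_iff]
        refine ⟨S.lev_subset_H j _ hγ, union_subset ?_ ?_⟩
        · refine Set.Subset.trans ?_ hY3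
          exact Finset.coe_subset.2 (Finset.erase_subset_erase y hEF)
        · exact subset_union_right.trans (S.subset_H j _)
      · exact hY3 (Finset.mem_coe.2 (Finset.mem_erase.2 ⟨hyx, Finset.mem_coe.1 hy⟩))

end Pool.Agent.H45.TH
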