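import Pool.Agent.H45.TH.Rst
import Pool.Agent.H45.TH.Dsc

/-!
# TH / NCh: the case in which the hull contains level `m`
-/

set_option autoImplicit false

open Cardinal Order Set

namespace Pool.Agent.H45.TH

variable {κ : Cardinal.{0}} {n : ℕ} {X : Type} [LinearOrder X]

theorem Sys.nonchang [WellFoundedLT X] (hκ : ℵ₀ ≤ κ) (S : Sys κ n X) {R m : ℕ}
    {E : ℕ → ℕ → X → Set X} {k : ℕ → Finset X → X → X} (hR : 2 ^ (n + 1) ≤ R)
    (hE : Enum κ m X E) (hk : S.KillFn R m E k) {T : Set X} (hT : S.Free R m k T)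
    (hTc : succ^[m] κ ≤ #T) (h2m : 2 * m ≤ n) (h3m : n + 3 ≤ 3 * m)
    (hL : lev κ X m ⊆ S.H 1 T) : False := by
  classical
  set C : Set X := S.H 1 T with hC
  have hCc : S.Closed C := S.H_closed _ _
  have hTinf : T.Infinite := by
    rw [← Set.infinite_coe_iff, Cardinal.infinite_iff]
    exact (aleph0_le_iter hκ m).trans hTc
  obtain ⟨t, ht1, htm, hbad⟩ := exists_good hκ C h2m h3m
  obtain ⟨a, ha⟩ : ∃ a, m = t + a := ⟨m - t, by omega⟩
  obtain ⟨b, hb⟩ : ∃ b, n + 1 = 2 * m + b := ⟨n + 1 - 2 * m, by omega⟩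
  have hpow : ∀ q, q ≤ n → 2 ^ q ≤ 2 ^ n := fun q hq => Nat.pow_le_pow_right (by norm_num) hq
  have hRn : 2 * 2 ^ n ≤ R := by
    rw [pow_succ] at hR
    omega
  have hb0 : S.KP 0 1 n T (↑(∅ : Finset X)) := S.kp_base T _
  -- the `t`-generated elements
  have hKP1 : S.KP (2 ^ (t - 1) * (0 + 1) - 1) t (m + b + a) T (↑(∅ : Finset X)) := by
    have h1 : S.KP 0 1 (m + b + a + (t - 1)) T (↑(∅ : Finset X)) := by
      rwa [show m + b + a + (t - 1) = n by omega]
    have h2 := S.kp_iter (t - 1) h1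
    rwa [show 1 + (t - 1) = t by omega] at h2
  set r1 : ℕ := 2 ^ (t - 1) * (0 + 1) - 1 with hr1
  have hr1n : r1 ≤ 2 ^ n := by
    have := hpow (t - 1) (by omega)
    omega
  obtain ⟨F, hF1, hF2⟩ := exists_disjoint_family (X := X) hκ hTc t
  have hch : ∀ i, ∃ x ∈ F i, ∃ γ ∈ lev κ X (m + b + a),
      γ ∈ S.G r1 (↑(F i) ∪ ↑(∅ : Finset X)) ∧
      x ∈ S.G r1 (insert γ (↑((F i).erase x) ∪ ↑(∅ : Finset X))) :=
    fun i => hKP1 (F i) (hF1 i).1 (hF1 i).2
  choose x hx γ hγ hγG hxG using hch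
  have hinj : Function.Injective γ := by
    intro i i' hii'
    by_contra hne
    have hxi : x i ∉ F i' := fun h => Finset.disjoint_left.1 (hF2 i i' hne) (hx i) h
    refine S.code_injective hT (Z := T) (W := ∅) Subset.rfl (by simp) (by simp) (r := r1)
      (by omega) (hF1 i).1 (hF1 i').1 (hx i) hxi
      (γ := γ i) (by rw [hii']; exact hγG i') (hxG i) ?_
    have h1 := Finset.card_union_le ((F i).erase (x i)) (F i')
    rw [Finset.card_erase_of_mem (hx i), (hF1 i).2, (hF1 i').2] at h1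
    rw [Finset.card_empty]
    omega
  have hγF : ∀ i, γ i ∈ S.G r1 (F i : Set X) := by
    intro i
    have := hγG i
    rwa [Finset.coe_empty, union_empty] at this
  have hγC : ∀ i, γ i ∈ C := fun i => S.G_sub_H ((hF1 i).1.trans (S.subset_H 1 _)) r1 (hγF i)
  -- descent
  have hZ0 : succ^[t + a] κ ≤ #(Set.range γ) := by
    rw [Cardinal.mk_range_eq γ hinj, Cardinal.mk_ord_toType, ← ha]
  have hCod : S.Cod C 0 (m + b + a) (Set.range γ) := by
    refine ⟨∅, id, by simp, Set.injOn_id _, ?_⟩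
    rintro _ ⟨i, rfl⟩
    exact ⟨hγC i, hγ i, Or.inl rfl⟩
  obtain ⟨Z', hZ'1, hZ'2, P, c, hPC, -, hc⟩ := S.descend hCc hCod hZ0 (fun i h1 h2 =>
    hbad i h1 (by omega))
  obtain ⟨l, β, hβ, hDZ, hDc⟩ := S.code hκ hE (R := R) (t := t) (j := m) (r := 0 + a + b) ht1 htm le_rfl
    (by
      have h1 : n < 2 ^ n := Nat.lt_two_pow_self
      omega) P.finite_toSet hZ'2 (fun y hy => ⟨c y, (hc y hy).2.1, (hc y hy).2.2⟩)
  -- the hull
  have hPC' : ((insert β P : Finset X) : Set X) ⊆ C := by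
    rw [Finset.coe_insert, insert_subset_iff]
    exact ⟨hL hβ, hPC⟩
  obtain ⟨F1, hF1T, hPF1⟩ := S.H_finchar _ hPC'
  obtain ⟨F3, hF3T, hF3c⟩ := hTinf.exists_subset_card_eq (n - t + 1)
  have hKP2 : S.KP (2 ^ (n - t) * (0 + 1) - 1) (n - t + 1) t T (↑(∅ : Finset X)) := by
    have h1 : S.KP 0 1 (t + (n - t)) T (↑(∅ : Finset X)) := by
      rwa [show t + (n - t) = n by omega]
    have h2 := S.kp_iter (n - t) h1
    rwa [show 1 + (n - t) = n - t + 1 by omega] at h2
  have hF2T : (↑(F1 ∪ F3) : Set X) ⊆ T := by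
    rw [Finset.coe_union]
    exact union_subset hF1T hF3T
  obtain ⟨Y, hY, hYc, hYH⟩ := S.kp_hull hKP2 (F1 ∪ F3) hF2T
  rw [Finset.coe_empty, union_empty] at hYH
  obtain ⟨u, huF, huY⟩ : ∃ u ∈ F1 ∪ F3, u ∉ Y := by
    by_contra hcon
    push Not at hcon
    have h1 := Finset.card_le_card (hcon : F1 ∪ F3 ⊆ Y)
    have h2 := Finset.card_le_card (Finset.subset_union_right : F3 ⊆ F1 ∪ F3)
    omega
  have hPH : ((insert β P : Finset X) : Set X) ⊆ S.H t (Y : Set X) := by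
    refine hPF1.trans ((S.H_le ht1 _).trans (S.H_sub ?_))
    refine subset_trans ?_ hYH
    rw [Finset.coe_union]
    exact subset_union_left
  rw [Finset.coe_insert, insert_subset_iff] at hPH
  have hidx : ∀ e ∈ S.D R P l (E t m β), ∃ i, γ i = e := fun e he => hZ'1 (hDZ he)
  let idx : X → (succ^[m] κ).ord.ToType := fun e =>
    if h : ∃ i, γ i = e then h.choose else Classical.choice (by
      rw [← Cardinal.mk_ne_zero_iff, Cardinal.mk_ord_toType]
      exact (lt_of_lt_of_le Cardinal.aleph0_pos (aleph0_le_iter hκ m)).ne')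
  have hidx' : ∀ e ∈ S.D R P l (E t m β), γ (idx e) = e := by
    intro e he
    simp only [idx]
    rw [dif_pos (hidx e he)]
    exact (hidx e he).choose_spec
  refine S.kill hk hT ht1 htm (Y := Y) ((Finset.coe_subset.2 hY).trans hF2T) (by omega)
    (hF2T huF) huY (hYH huF) (P := P) hPH.2 (l := l) (j := m) (β := β) le_rfl hPH.1 hDc
    (fun e => F (idx e)) ?_ ?_
  · intro e he
    refine ⟨(hF1 _).1, (hF1 _).2.le, ?_⟩
    have h1 := S.G_le (by omega : r1 ≤ R) _ (hγF (idx e))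
    rwa [hidx' e he] at h1
  · intro e he e' he' hne
    refine hF2 _ _ ?_
    intro h
    apply hne
    rw [← hidx' e he, ← hidx' e' he', h]

end Pool.Agent.H45.TH
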