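import Pool.Agent.H45.TH.Cl
import Pool.Agent.H45.TH.Ini

/-!
# TH / Pos: Kuratowski's free set theorem

`f` assigns to the `k`-element subsets of `Z`, `#Z ≥ κ^((k+1)+)`, sets with at most `κ` elements of `Z`. Then there is a set `E` of `k + 1`
elements of `Z` with `x ∉ f (E.erase x)` for all `x ∈ E`.

PROOF. Induction on `k`, for all `Z`, `f`. `k = 0`: take `x ∈ Z`, `x ∉ f ∅` (`#(f ∅ ∩ Z) ≤ κ < #Z`), `E = {x}`. `k → k + 1`: take `Z₀ ⊆ Z`
with `#Z₀ = κ^((k+1)+)` (`Cardinal.le_mk_iff_exists_subset`). The union of `Z₀` and of the sets `f F ∩ Z` with `F ⊆ Z₀`, `F.card = k + 1` has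
size at most `κ^((k+1)+)` (`mk_biUnion_le'` with `I` the set of the finite subsets of `Z₀`, `#I ≤ κ^((k+1)+)`: e.g.
`Cardinal.mk_finset_of_infinite`, or `Cardinal.mk_subset_ge_of_subset_image`, through the type `Finset Z₀`), so some `x ∈ Z` lies outside.
Put `f' F = f (insert x F)`. For `F ⊆ Z₀` with `k` elements `insert x F ⊆ Z` has `k + 1` elements and
`f' F ∩ Z₀ ⊆ f (insert x F) ∩ Z`. By induction there is `E' ⊆ Z₀` with `k + 1` elements, `y ∉ f (insert x (E'.erase y))` for `y ∈ E'`.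
`E = insert x E'`: `E.erase x = E'` and `x ∉ f E'` by the choice of `x`; for `y ∈ E'`: `E.erase y = insert x (E'.erase y)`.
-/

set_option autoImplicit false

open Cardinal Order Set

namespace Pool.Agent.H45.TH

theorem Pos_exists_notMem {X : Type} {c : Cardinal.{0}} {Z U : Set X} (hZ : c < #Z) (hU : #U ≤ c) :
    ∃ x ∈ Z, x ∉ U := by
  by_contra hcon
  push Not at hcon
  have h1 : #Z ≤ #U := Cardinal.mk_le_mk_of_subset hcon
  exact absurd (h1.trans hU) (not_le.2 hZ)

theorem Pos_finsets {X : Type} {c : Cardinal.{0}} (hc : ℵ₀ ≤ c) {Z : Set X} (hZ : #Z = c) (k : ℕ) :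
    #({F : Finset X | (F : Set X) ⊆ Z ∧ F.card = k} : Set (Finset X)) ≤ c := by
  classical
  have hinf : Infinite Z := by
    rw [Cardinal.infinite_iff, hZ]
    exact hc
  have hsub : ({F : Finset X | (F : Set X) ⊆ Z ∧ F.card = k} : Set (Finset X)) ⊆
      Set.range (fun G : Finset Z => G.map (Function.Embedding.subtype (· ∈ Z))) := by
    rintro F ⟨hF, _⟩
    exact ⟨F.subtype (· ∈ Z), Finset.subtype_map_of_mem fun x hx => hF hx⟩
  refine (Cardinal.mk_le_mk_of_subset hsub).trans (Cardinal.mk_range_le.trans ?_)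
  rw [Cardinal.mk_finset_of_infinite, hZ]

theorem kuratowski {X : Type} [DecidableEq X] {κ : Cardinal.{0}} (hκ : ℵ₀ ≤ κ) (k : ℕ) (Z : Set X)
    (hZ : succ^[k + 1] κ ≤ #Z) (f : Finset X → Set X)
    (hf : ∀ F : Finset X, (F : Set X) ⊆ Z → F.card = k → #(f F ∩ Z : Set X) ≤ κ) :
    ∃ E : Finset X, (E : Set X) ⊆ Z ∧ E.card = k + 1 ∧ ∀ x ∈ E, x ∉ f (E.erase x) := by
  induction k generalizing Z f with
  | zero =>
    have h1 : κ < #Z := by
      have := iter_succ_le.1 hZ
      simpa using this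
    obtain ⟨x, hxZ, hx⟩ := Pos_exists_notMem h1 (hf ∅ (by simp) rfl)
    refine ⟨{x}, by simpa using hxZ, by simp, fun y hy => ?_⟩
    rw [Finset.mem_singleton] at hy
    subst hy
    intro h2
    refine hx ⟨?_, hxZ⟩
    have h3 : ({y} : Finset X).erase y = ∅ := by simp
    rw [h3] at h2
    exact h2
  | succ k ih =>
    have hc := aleph0_le_iter hκ (k + 1)
    have hlt : succ^[k + 1] κ < #Z := iter_succ_le.1 hZ
    obtain ⟨Z0, hZ0, hcard⟩ := Cardinal.le_mk_iff_exists_subset.1 hlt.le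
    have hI := Pos_finsets hc hcard (k + 1)
    have hκc : κ ≤ succ^[k + 1] κ := iter_le (i := 0) (Nat.zero_le _)
    have hU2 : #(⋃ F ∈ ({F : Finset X | (F : Set X) ⊆ Z0 ∧ F.card = k + 1} : Set (Finset X)),
        (f F ∩ Z) : Set X) ≤ succ^[k + 1] κ := by
      refine mk_biUnion_le' hc _ _ hI ?_
      rintro F ⟨hF, hFc⟩
      exact (hf F (hF.trans hZ0) hFc).trans hκc
    have hU : #(Z0 ∪ ⋃ F ∈ ({F : Finset X | (F : Set X) ⊆ Z0 ∧ F.card = k + 1} : Set (Finset X)),
        (f F ∩ Z) : Set X) ≤ succ^[k + 1] κ :=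
      (Cardinal.mk_union_le _ _).trans ((add_le_add hcard.le hU2).trans (Cardinal.add_eq_self hc).le)
    obtain ⟨x, hxZ, hx⟩ := Pos_exists_notMem hlt hU
    have hx0 : x ∉ Z0 := fun h => hx (Or.inl h)
    obtain ⟨E', hE'Z, hE'c, hE'⟩ := ih Z0 hcard.ge (fun F => f (insert x F)) (by
      intro F hF hFc
      have hxF : x ∉ F := fun h => hx0 (hF h)
      have h1 : ((insert x F : Finset X) : Set X) ⊆ Z := by
        rw [Finset.coe_insert]
        exact Set.insert_subset hxZ (hF.trans hZ0)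
      have h2 := hf (insert x F) h1 (by rw [Finset.card_insert_of_notMem hxF, hFc])
      exact (Cardinal.mk_le_mk_of_subset (Set.inter_subset_inter_right _ hZ0)).trans h2)
    have hxE : x ∉ E' := fun h => hx0 (hE'Z h)
    refine ⟨insert x E', ?_, ?_, ?_⟩
    · rw [Finset.coe_insert]
      exact Set.insert_subset hxZ (hE'Z.trans hZ0)
    · rw [Finset.card_insert_of_notMem hxE, hE'c]
    · intro y hy
      rw [Finset.mem_insert] at hy
      rcases hy with rfl | hy
      · rw [Finset.erase_insert hxE]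
        intro h3
        refine hx (Or.inr ?_)
        exact Set.mem_biUnion (show E' ∈ ({F : Finset X | (F : Set X) ⊆ Z0 ∧ F.card = k + 1} : Set (Finset X))
          from ⟨hE'Z, hE'c⟩) ⟨h3, hxZ⟩
      · have hne : x ≠ y := fun h => hxE (h ▸ hy)
        rw [Finset.erase_insert_of_ne hne]
        exact hE' y hy

end Pool.Agent.H45.TH
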