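import Pool.Agent.H45.TH.Cl
import Pool.Agent.H45.TH.Ini

/-!
# TH / Unb: a closed set which is large in a level contains the level

`C` is closed (under `e`, `d`), contains level 1 and has `κ^(m+)` elements in level `m`. Then it contains level `m`.

PROOF. Induction on `m ≥ 1` (`Nat.le_induction`, `C` fixed). `m = 1`: trivial. `m → m + 1`: let `D = C ∩ lev (m+1)`, `κ^((m+1)+) ≤ #D`. By
`exists_many_below` (`ν = κ^(m+)`, `succ ν = κ^((m+1)+)` is `Function.iterate_succ_apply'`) there is `b ∈ D` with `κ^(m+) ≤ #(D ∩ Iio b)`.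
`S.e b` is injective on `Iio b` (`S.d_e`), maps `D ∩ Iio b` into `C` (closedness) and into `lev m` (`S.e_lev`), so
`κ^(m+) ≤ #(C ∩ lev m)` (`Cardinal.mk_image_eq_of_injOn`) and `lev m ⊆ C` by induction. Now let `β ∈ lev (m+1)`: by `exists_above`
(`#(Iio β) < κ^((m+1)+) ≤ #D`) there is `b ∈ D`, `β < b`; `S.e b β ∈ lev m ⊆ C` and `β = S.d b (S.e b β) ∈ C`.
-/

set_option autoImplicit false

open Cardinal Order Set

namespace Pool.Agent.H45.TH

variable {κ : Cardinal.{0}} {n : ℕ} {X : Type} [LinearOrder X]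

theorem Sys.unb [WellFoundedLT X] (hκ : ℵ₀ ≤ κ) (S : Sys κ n X) {C : Set X} (hC : S.Closed C)
    (h1 : lev κ X 1 ⊆ C) (m : ℕ) (hm : 1 ≤ m) (h : succ^[m] κ ≤ #(C ∩ lev κ X m : Set X)) :
    lev κ X m ⊆ C := by
  induction m, hm using Nat.le_induction with
  | base => exact h1
  | succ m hm ih =>
    have h' : succ (succ^[m] κ) ≤ #(C ∩ lev κ X (m + 1) : Set X) := by
      rw [Function.iterate_succ_apply'] at h
      exact h
    have h2 : succ^[m] κ ≤ #(C ∩ lev κ X m : Set X) := by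
      obtain ⟨b, hb, hb2⟩ := exists_many_below h'
      refine hb2.trans ?_
      have hinj : Set.InjOn (S.e b) ((C ∩ lev κ X (m + 1)) ∩ Set.Iio b) := by
        intro x hx y hy hxy
        rw [← S.d_e b x hx.2, ← S.d_e b y hy.2, hxy]
      rw [← Cardinal.mk_image_eq_of_injOn _ _ hinj]
      refine Cardinal.mk_le_mk_of_subset ?_
      rintro _ ⟨x, hx, rfl⟩
      exact ⟨(hC.2 x hx.1.1 b hb.1).1, S.e_lev m b x hx.2 hb.2⟩
    have h3 := ih h2
    intro β hβ
    obtain ⟨b, hb, hb2⟩ := exists_above (ν := succ^[m + 1] κ) (aleph0_le_iter hκ (m + 1)) hβ h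
    have h4 : S.e b β ∈ lev κ X m := S.e_lev m b β hb2 hb.2
    have h5 := (hC.2 _ (h3 h4) b hb.1).2
    rwa [S.d_e b β hb2] at h5

end Pool.Agent.H45.TH
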