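import Pool.Agent.H45.TH.Kur
import Pool.Agent.H45.TH.Kil
import Pool.Agent.H45.TH.Pos
import Pool.Agent.H45.TH.Unb
import Pool.Agent.H45.TH.Cod

/-!
# TH / Rst: the relative theorem
-/

set_option autoImplicit false

open Cardinal Order Set

namespace Pool.Agent.H45.TH

variable {κ : Cardinal.{0}} {n : ℕ} {X : Type} [LinearOrder X]

/-- many disjoint subsets with `q` elements -/
lemma exists_disjoint_family (hκ : ℵ₀ ≤ κ) {Z : Set X} {m : ℕ} (hZ : succ^[m] κ ≤ #Z) (q : ℕ) :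
    ∃ F : (succ^[m] κ).ord.ToType → Finset X, (∀ i, (F i : Set X) ⊆ Z ∧ (F i).card = q) ∧
      ∀ i j, i ≠ j → Disjoint (F i) (F j) := by
  classical
  have hc := aleph0_le_iter hκ m
  have h1 : #((succ^[m] κ).ord.ToType × Fin q) ≤ #Z := by
    refine le_trans ?_ hZ
    rw [← Cardinal.mul_def, Cardinal.mk_ord_toType, Cardinal.mk_fin]
    refine (mul_le_mul' le_rfl ((Cardinal.natCast_lt_aleph0 (n := q)).le.trans hc)).trans ?_
    exact (Cardinal.mul_eq_self hc).le
  obtain ⟨φ⟩ := (Cardinal.le_def _ _).1 h1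
  refine ⟨fun i => Finset.univ.image (fun a : Fin q => (φ (i, a) : X)), ?_, ?_⟩
  · intro i
    constructor
    · intro x hx
      rw [Finset.coe_image] at hx
      obtain ⟨a, -, rfl⟩ := hx
      exact (φ (i, a)).2
    · rw [Finset.card_image_of_injective, Finset.card_univ, Fintype.card_fin]
      intro a b hab
      have := φ.injective (Subtype.ext hab)
      exact (Prod.mk.inj this).2
  · intro i j hij
    rw [Finset.disjoint_left]
    intro x hx hx'
    rw [Finset.mem_image] at hx hx'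
    obtain ⟨a, -, rfl⟩ := hx
    obtain ⟨b, -, hb⟩ := hx'
    have := φ.injective (Subtype.ext hb)
    exact hij (Prod.mk.inj this).1.symm

/-- disjoint sets have distinct codes in a free set -/
lemma Sys.code_injective (S : Sys κ n X) {R m : ℕ} {k : ℕ → Finset X → X → X} {T : Set X}
    (hT : S.Free R m k T) {Z : Set X} {W : Finset X} (hZT : Z ⊆ T) (hWT : (W : Set X) ⊆ T)
    (hZW : Disjoint Z (W : Set X)) {r : ℕ} (hr : 2 * r ≤ R) {A B : Finset X} (hA : (A : Set X) ⊆ Z)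
    (hB : (B : Set X) ⊆ Z) {x γ : X} (hx : x ∈ A) (hxB : x ∉ B)
    (h1 : γ ∈ S.G r (↑B ∪ ↑W)) (h2 : x ∈ S.G r (insert γ (↑(A.erase x) ∪ ↑W)))
    (hc : ((A.erase x) ∪ B).card + W.card ≤ n) : False := by
  classical
  have hxZ : x ∈ Z := hA hx
  refine S.free_G hT (Y := (A.erase x) ∪ B ∪ W) ?_ ((Finset.card_union_le _ _).trans hc)
    (hZT hxZ) ?_ hr (r := 2 * r) ?_
  · rw [Finset.coe_union, Finset.coe_union]
    refine union_subset (union_subset ?_ (hB.trans hZT)) hWT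
    exact (Finset.coe_subset.2 (Finset.erase_subset _ _)).trans (hA.trans hZT)
  · rw [Finset.mem_union, Finset.mem_union]
    rintro ((h | h) | h)
    · exact Finset.notMem_erase _ _ h
    · exact hxB h
    · exact Set.disjoint_left.1 hZW hxZ h
  · have h3 : insert γ (↑(A.erase x) ∪ ↑W) ⊆ S.G r (↑((A.erase x) ∪ B ∪ W) : Set X) := by
      rw [insert_subset_iff]
      constructor
      · refine S.G_mono ?_ r h1
        rw [Finset.coe_union, Finset.coe_union]
        exact union_subset_union_left _ subset_union_right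
      · refine subset_trans ?_ (S.subset_G r _)
        rw [Finset.coe_union, Finset.coe_union]
        exact union_subset_union_left _ subset_union_left
    have h4 := S.G_trans h3 r h2
    rwa [← two_mul] at h4

theorem Sys.r1star [WellFoundedLT X] (hκ : ℵ₀ ≤ κ) (S : Sys κ n X) {R m : ℕ}
    {E : ℕ → ℕ → X → Set X} {k : ℕ → Finset X → X → X} (hR : 2 ^ (n + 1) ≤ R)
    (hE : Enum κ m X E) (hk : S.KillFn R m E k) {T : Set X} (hT : S.Free R m k T) {Z : Set X}
    {W : Finset X} {r s j m' : ℕ} (hZT : Z ⊆ T) (hWT : (W : Set X) ⊆ T)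
    (hZW : Disjoint Z (W : Set X)) (hZ : succ^[m'] κ ≤ #Z) (hm2 : 2 ≤ m') (hm'm : m' ≤ m)
    (hKP : S.KP r s j Z W) (hj : m' ≤ j) (hs : 1 ≤ s) (hW : s + j - 1 + W.card ≤ n)
    (hn' : s + j ≤ 2 * m') (hr : 2 ^ j * (r + 1) ≤ 2 ^ n) : False := by
  classical
  obtain ⟨i0, rfl⟩ : ∃ i0, j = m' + i0 := ⟨j - m', by omega⟩
  obtain ⟨k', hk'⟩ : ∃ k', s + i0 = k' + 1 := ⟨s + i0 - 1, by omega⟩
  -- level `m'`
  have hKP1 := S.kp_iter i0 hKP
  rw [hk'] at hKP1
  set r1 : ℕ := 2 ^ i0 * (r + 1) - 1 with hr1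
  have hr1n : r1 ≤ 2 ^ n := by
    have h1 : 2 ^ i0 * (r + 1) ≤ 2 ^ (m' + i0) * (r + 1) :=
      Nat.mul_le_mul_right _ (Nat.pow_le_pow_right (by norm_num) (by omega))
    omega
  have hr1R : 2 * r1 ≤ R := by
    rw [pow_succ] at hR
    omega
  have hnR : 2 ^ n ≤ R := le_trans (Nat.pow_le_pow_right (by norm_num) (Nat.le_succ n)) hR
  set C : Set X := S.H 1 (Z ∪ ↑W) with hC
  have hCc : S.Closed C := S.H_closed _ _
  have hZinf : Z.Infinite := by
    rw [← Set.infinite_coe_iff, Cardinal.infinite_iff]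
    exact (aleph0_le_iter hκ m').trans hZ
  -- many codes
  have hlev : lev κ X m' ⊆ C := by
    refine S.unb hκ hCc (S.lev_subset_H 1 _) m' (by omega) ?_
    obtain ⟨F, hF1, hF2⟩ := exists_disjoint_family (X := X) hκ hZ (k' + 1)
    have hch : ∀ i, ∃ x ∈ F i, ∃ γ ∈ lev κ X m', γ ∈ S.G r1 (↑(F i) ∪ ↑W) ∧
        x ∈ S.G r1 (insert γ (↑((F i).erase x) ∪ ↑W)) := fun i => hKP1 (F i) (hF1 i).1 (hF1 i).2
    choose x hx γ hγ hγG hxG using hch
    have hinj : Function.Injective γ := by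
      intro i i' hii'
      by_contra hne
      have hxi : x i ∉ F i' := fun h => Finset.disjoint_left.1 (hF2 i i' hne) (hx i) h
      refine S.code_injective hT hZT hWT hZW hr1R (hF1 i).1 (hF1 i').1 (hx i) hxi
        (γ := γ i) (by rw [hii']; exact hγG i') (hxG i) ?_
      have h1 := Finset.card_union_le ((F i).erase (x i)) (F i')
      rw [Finset.card_erase_of_mem (hx i), (hF1 i).2, (hF1 i').2] at h1
      omega
    have h1 : #((succ^[m'] κ).ord.ToType) ≤ #(C ∩ lev κ X m' : Set X) := by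
      refine Cardinal.mk_le_of_injective (f := fun i => (⟨γ i, ?_, hγ i⟩ : (C ∩ lev κ X m' : Set X)))
        ?_
      · refine S.G_sub_H (t := 1) (V := Z ∪ ↑W) ?_ r1 (hγG i)
        exact (union_subset_union_left _ (hF1 i).1).trans (S.subset_H 1 _)
      · intro i i' h
        exact hinj (congrArg Subtype.val h)
    rwa [Cardinal.mk_ord_toType] at h1
  -- Kuratowski
  obtain ⟨F, hFZ, hFc, hFf⟩ : ∃ F : Finset X, (F : Set X) ⊆ Z ∧ F.card = k' ∧
      succ^[1] κ ≤ #({x | ∃ γ ∈ lev κ X m', x ∈ S.G r1 (insert γ (↑F ∪ ↑W))} ∩ Z : Set X) := by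
    by_contra hcon
    push Not at hcon
    obtain ⟨E', hE1, hE2, hE3⟩ := kuratowski hκ k' Z
      ((iter_le (by omega : k' + 1 ≤ m')).trans hZ)
      (fun F => {x | ∃ γ ∈ lev κ X m', x ∈ S.G r1 (insert γ (↑F ∪ ↑W))}) (by
        intro F h1 h2
        have := hcon F h1 h2
        exact lt_iter_succ.1 this)
    obtain ⟨x, hx, γ, hγ, -, hxG⟩ := hKP1 E' hE1 hE2
    exact hE3 x hx ⟨γ, hγ, hxG⟩
  -- the coded set
  have hPfin : (↑(F ∪ W) : Set X).Finite := Finset.finite_toSet _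
  obtain ⟨l, β, hβ, hDZ, hDc⟩ := S.code hκ hE (t := 1) (j := m') (r := r1) le_rfl (by omega) hm'm
    (hr1n.trans hnR) hPfin hFf (by
      rintro x ⟨⟨γ, hγ, hx⟩, -⟩
      refine ⟨γ, hγ, ?_⟩
      rw [Finset.coe_union]
      exact hx)
  -- the hull
  have hPC : ((insert β (F ∪ W) : Finset X) : Set X) ⊆ C := by
    rw [Finset.coe_insert, insert_subset_iff, Finset.coe_union]
    exact ⟨hlev hβ, (union_subset_union_left _ hFZ).trans (S.subset_H 1 _)⟩
  obtain ⟨F1, hF1, hPF1⟩ := S.H_finchar _ hPC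
  obtain ⟨F3, hF3Z, hF3c⟩ := hZinf.exists_subset_card_eq (s + (m' + i0) - 1)
  have hKP2 : S.KP (2 ^ (m' + i0 - 1) * (r + 1) - 1) (s + (m' + i0) - 1 - 1 + 1) 1 Z ↑W := by
    have h1 : S.KP r s (1 + (m' + i0 - 1)) Z ↑W := by
      rwa [show 1 + (m' + i0 - 1) = m' + i0 by omega]
    have h2 := S.kp_iter (m' + i0 - 1) h1
    rwa [show s + (m' + i0 - 1) = s + (m' + i0) - 1 - 1 + 1 by omega] at h2
  have hF2Z : (↑((F1.filter (· ∈ Z)) ∪ F3) : Set X) ⊆ Z := by
    rw [Finset.coe_union]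
    refine union_subset ?_ hF3Z
    intro y hy
    rw [Finset.coe_filter] at hy
    exact hy.2
  obtain ⟨Y1, hY1, hY1c, hY1H⟩ := S.kp_hull hKP2 ((F1.filter (· ∈ Z)) ∪ F3) hF2Z
  obtain ⟨u, huF, huY⟩ : ∃ u ∈ (F1.filter (· ∈ Z)) ∪ F3, u ∉ Y1 := by
    by_contra hcon
    push Not at hcon
    have h1 := Finset.card_le_card (hcon : (F1.filter (· ∈ Z)) ∪ F3 ⊆ Y1)
    have h2 := Finset.card_le_card (Finset.subset_union_right : F3 ⊆ (F1.filter (· ∈ Z)) ∪ F3)
    omega
  have huZ : u ∈ Z := hF2Z huF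
  have hYT : (↑(Y1 ∪ W) : Set X) ⊆ T := by
    rw [Finset.coe_union]
    exact union_subset ((Finset.coe_subset.2 hY1).trans (hF2Z.trans hZT)) hWT
  have hF1H : (F1 : Set X) ⊆ S.H 1 (↑(Y1 ∪ W) : Set X) := by
    intro y hy
    rw [Finset.coe_union]
    rcases hF1 hy with h | h
    · refine hY1H ?_
      rw [Finset.coe_union]
      left
      rw [Finset.coe_filter]
      exact ⟨hy, h⟩
    · exact S.subset_H 1 _ (Or.inr h)
  have hPH : ((insert β (F ∪ W) : Finset X) : Set X) ⊆ S.H 1 (↑(Y1 ∪ W) : Set X) :=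
    hPF1.trans (S.H_sub hF1H)
  rw [Finset.coe_insert, insert_subset_iff] at hPH
  refine S.kill hk hT (t := 1) le_rfl (by omega) (Y := Y1 ∪ W) hYT ?_ (hZT huZ) ?_ ?_
    (P := F ∪ W) hPH.2 (l := l) (j := m') (β := β) hm'm hPH.1 hDc (fun e => {e}) ?_ ?_
  · have := Finset.card_union_le Y1 W
    omega
  · rw [Finset.mem_union]
    rintro (h | h)
    · exact huY h
    · exact Set.disjoint_left.1 hZW huZ h
  · rw [Finset.coe_union]
    exact hY1H huF
  · intro e he
    have heZ := (hDZ he).2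
    refine ⟨?_, by simp, ?_⟩
    · rw [Finset.coe_singleton, singleton_subset_iff]
      exact hZT heZ
    · refine S.subset_G R _ ?_
      simp
  · intro e _ e' _ hne
    rw [Finset.disjoint_singleton]
    exact hne

end Pool.Agent.H45.TH
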